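import Mathlib

/-!
# The Beck-Fiala argument for matrices with columns of bounded `ℓ₁` norm

If every column of a real matrix `B` has `ℓ₁` norm at most `1`, then every real vector `x` can be
rounded to an integer vector `a` with `|x i - a i| ≤ 1` and all entries of `B (x - a)` at most `1`
in absolute value.
-/

set_option autoImplicit false

namespace Pool.Agent.Lib.MP_183cce_co

/-- one step: a direction `y` supported on the floating coordinates leads to the boundary of the
cube -/
theorem bf_move {ι : Type*} [Fintype ι] (z y : ι → ℝ) (hz0 : ∀ i, 0 ≤ z i)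
    (hz1 : ∀ i, z i ≤ 1) (hy : ∀ i, z i = 0 ∨ z i = 1 → y i = 0) (hne : y ≠ 0) :
    ∃ t : ℝ, (∀ i, 0 ≤ z i + t * y i) ∧ (∀ i, z i + t * y i ≤ 1) ∧
      ∃ i, z i ≠ 0 ∧ z i ≠ 1 ∧ (z i + t * y i = 0 ∨ z i + t * y i = 1) := by
  classical
  obtain ⟨i1, hi1⟩ := Function.ne_iff.1 hne
  let s : Finset ι := Finset.univ.filter fun i => y i ≠ 0
  have hs : s.Nonempty := ⟨i1, by simp [s]; exact hi1⟩
  let f : ι → ℝ := fun i => if 0 < y i then (1 - z i) / y i else z i / (-y i)
  obtain ⟨i0, hi0, hmin⟩ := s.exists_min_image f hs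
  have hy0 : y i0 ≠ 0 := (Finset.mem_filter.1 hi0).2
  have hzz0 : z i0 ≠ 0 := fun h => hy0 (hy i0 (Or.inl h))
  have hzz1 : z i0 ≠ 1 := fun h => hy0 (hy i0 (Or.inr h))
  have hf0 : 0 ≤ f i0 := by
    simp only [f]
    split_ifs with h
    · exact div_nonneg (sub_nonneg.2 (hz1 _)) h.le
    · exact div_nonneg (hz0 _) (by linarith [not_lt.1 h])
  refine ⟨f i0, fun i => ?_, fun i => ?_, i0, hzz0, hzz1, ?_⟩
  · by_cases hyi : y i = 0
    · rw [hyi, mul_zero, add_zero]; exact hz0 i
    by_cases hp : 0 < y i
    · have := hz0 i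
      have := mul_nonneg hf0 hp.le
      linarith
    · have hneg : 0 < -y i := by
        rcases lt_or_gt_of_ne hyi with h | h
        · linarith
        · exact absurd h hp
      have hm := hmin i (by simp [s, hyi])
      have hfi : f i = z i / (-y i) := by simp only [f]; rw [if_neg hp]
      rw [hfi, le_div_iff₀ hneg] at hm
      linarith
  · by_cases hyi : y i = 0
    · rw [hyi, mul_zero, add_zero]; exact hz1 i
    by_cases hp : 0 < y i
    · have hm := hmin i (by simp [s, hyi])
      have hfi : f i = (1 - z i) / y i := by simp only [f]; rw [if_pos hp]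
      rw [hfi, le_div_iff₀ hp] at hm
      linarith
    · have := hz1 i
      have h2 : f i0 * y i ≤ 0 := mul_nonpos_of_nonneg_of_nonpos hf0 (not_lt.1 hp)
      linarith
  · simp only [f]
    by_cases hp : 0 < y i0
    · right
      rw [if_pos hp, div_mul_cancel₀ _ hy0]
      ring
    · left
      rw [if_neg hp, div_neg, neg_mul, div_mul_cancel₀ _ hy0]
      ring

/-- a nonzero vector supported on `F` and orthogonal to fewer than `F.card` rows -/
theorem bf_kernel {Q ι : Type*} [Fintype Q] [Fintype ι] [DecidableEq ι] (B : Q → ι → ℝ)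
    (F : Finset ι) (A : Finset Q) (h : A.card < F.card) :
    ∃ y : ι → ℝ, y ≠ 0 ∧ (∀ i, i ∉ F → y i = 0) ∧ ∀ q ∈ A, ∑ i, B q i * y i = 0 := by
  classical
  let E : (F → ℝ) →ₗ[ℝ] (A → ℝ) :=
    { toFun := fun w q => ∑ i : F, B q i * w i
      map_add' := by
        intro u w
        ext q
        simp only [Pi.add_apply, mul_add, Finset.sum_add_distrib]
      map_smul' := by
        intro c w
        ext q
        simp only [Pi.smul_apply, smul_eq_mul, RingHom.id_apply, Finset.mul_sum]
        exact Finset.sum_congr rfl fun i _ => by ring }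
  have hk : LinearMap.ker E ≠ ⊥ := by
    apply LinearMap.ker_ne_bot_of_finrank_lt
    simpa using h
  obtain ⟨w, hw, hw0⟩ := (Submodule.ne_bot_iff _).1 hk
  refine ⟨fun i => if hi : i ∈ F then w ⟨i, hi⟩ else 0, ?_, ?_, ?_⟩
  · intro h0
    apply hw0
    ext ⟨i, hi⟩
    have := congrFun h0 i
    simpa [hi] using this
  · intro i hi
    simp [hi]
  · intro q hq
    have hE := congrFun (LinearMap.mem_ker.1 hw) ⟨q, hq⟩
    have e : ∑ i, B q i * (if hi : i ∈ F then w ⟨i, hi⟩ else 0) = ∑ i : F, B q i * w i := by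
      rw [← Finset.sum_subset (Finset.subset_univ F) (fun i _ hi => by simp [hi]),
        ← Finset.sum_attach]
      refine Finset.sum_congr rfl fun i _ => ?_
      simp
    rw [e]
    exact hE

theorem bf_unit {Q ι : Type*} [Fintype Q] [Fintype ι] (B : Q → ι → ℝ)
    (hB : ∀ i, ∑ q, |B q i| ≤ 1) :
    ∀ (N : ℕ) (z : ι → ℝ), (∀ i, 0 ≤ z i) → (∀ i, z i ≤ 1) →
      (Finset.univ.filter fun i => z i ≠ 0 ∧ z i ≠ 1).card = N →
      ∃ a : ι → ℝ, (∀ i, a i = 0 ∨ a i = 1) ∧ (∀ i, z i = 0 ∨ z i = 1 → a i = z i) ∧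
        ∀ q, |∑ i, B q i * (z i - a i)| ≤ 1 := by
  classical
  intro N
  induction N using Nat.strong_induction_on with
  | _ N ih =>
  intro z hz0 hz1 hN
  set F : Finset ι := Finset.univ.filter fun i => z i ≠ 0 ∧ z i ≠ 1 with hF
  have hmemF : ∀ i, i ∈ F ↔ z i ≠ 0 ∧ z i ≠ 1 := fun i => by simp [hF]
  rcases Nat.eq_zero_or_pos N with h0 | hpos
  · refine ⟨z, fun i => ?_, fun _ _ => rfl, fun q => by simp⟩
    by_contra hcon
    push Not at hcon
    have : i ∈ F := (hmemF i).2 hcon
    rw [h0, Finset.card_eq_zero] at hN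
    rw [hN] at this
    simp at this
  · -- the active rows
    set A : Finset Q := Finset.univ.filter fun q => 1 < ∑ i ∈ F, |B q i| with hA
    have hcard : A.card < F.card := by
      by_cases hAe : A.Nonempty
      · have h1 : (A.card : ℝ) < ∑ q ∈ A, ∑ i ∈ F, |B q i| := by
          calc (A.card : ℝ) = ∑ q ∈ A, (1 : ℝ) := by simp
            _ < _ := Finset.sum_lt_sum_of_nonempty hAe fun q hq => (Finset.mem_filter.1 hq).2
        have h2 : ∑ q ∈ A, ∑ i ∈ F, |B q i| ≤ (F.card : ℝ) := by
          rw [Finset.sum_comm]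
          calc ∑ i ∈ F, ∑ q ∈ A, |B q i| ≤ ∑ i ∈ F, (1 : ℝ) := by
                refine Finset.sum_le_sum fun i _ => ?_
                exact (Finset.sum_le_sum_of_subset_of_nonneg (Finset.subset_univ A)
                  fun q _ _ => abs_nonneg _).trans (hB i)
            _ = _ := by simp
        exact_mod_cast h1.trans_le h2
      · rw [Finset.not_nonempty_iff_eq_empty.1 hAe, Finset.card_empty, hN]
        exact hpos
    obtain ⟨y, hy0, hyF, hyA⟩ := bf_kernel B F A hcard
    obtain ⟨t, ht0, ht1, i0, hi00, hi01, hi0⟩ := bf_move z y hz0 hz1 (fun i hi => by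
      apply hyF
      rw [hmemF]
      push Not
      intro h
      exact hi.resolve_left h) hy0
    have hsub : (Finset.univ.filter fun i => z i + t * y i ≠ 0 ∧ z i + t * y i ≠ 1) ⊂ F := by
      refine (Finset.ssubset_iff_of_subset ?_).2 ⟨i0, (hmemF i0).2 ⟨hi00, hi01⟩, ?_⟩
      · intro i hi
        by_contra hcon
        have hyi := hyF i hcon
        rw [Finset.mem_filter, hyi, mul_zero, add_zero] at hi
        exact hcon ((hmemF i).2 hi.2)
      · intro hi
        rw [Finset.mem_filter] at hi
        rcases hi0 with h | h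
        · exact hi.2.1 h
        · exact hi.2.2 h
    obtain ⟨a, ha01, haz, haq⟩ := ih _ (hN ▸ Finset.card_lt_card hsub)
      (fun i => z i + t * y i) ht0 ht1 rfl
    have haz' : ∀ i, i ∉ F → a i = z i := by
      intro i hi
      have hyi := hyF i hi
      have hzi : z i = 0 ∨ z i = 1 := by
        by_contra hcon
        push Not at hcon
        exact hi ((hmemF i).2 hcon)
      have h1 := haz i (by rw [hyi, mul_zero, add_zero]; exact hzi)
      simpa [hyi] using h1
    refine ⟨a, ha01, fun i hi => haz' i ?_, fun q => ?_⟩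
    · rw [hmemF]
      push Not
      intro h
      exact hi.resolve_left h
    · by_cases hq : q ∈ A
      · have h1 := haq q
        have h2 : ∑ i, B q i * (z i + t * y i - a i) = ∑ i, B q i * (z i - a i) := by
          have e : ∀ i, B q i * (z i + t * y i - a i) =
              B q i * (z i - a i) + t * (B q i * y i) := fun i => by ring
          simp_rw [e]
          rw [Finset.sum_add_distrib, ← Finset.mul_sum, hyA q hq, mul_zero, add_zero]
        rw [← h2]
        exact h1
      · have hq' : ∑ i ∈ F, |B q i| ≤ 1 := by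
          by_contra hcon
          push Not at hcon
          exact hq (by simp [hA, hcon])
        have h3 : ∑ i, B q i * (z i - a i) = ∑ i ∈ F, B q i * (z i - a i) := by
          refine (Finset.sum_subset (Finset.subset_univ F) fun i _ hi => ?_).symm
          rw [haz' i hi, sub_self, mul_zero]
        rw [h3]
        calc |∑ i ∈ F, B q i * (z i - a i)| ≤ ∑ i ∈ F, |B q i * (z i - a i)| :=
              Finset.abs_sum_le_sum_abs _ _
          _ ≤ ∑ i ∈ F, |B q i| := by
              refine Finset.sum_le_sum fun i _ => ?_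
              rw [abs_mul]
              refine mul_le_of_le_one_right (abs_nonneg _) ?_
              have := hz0 i
              have := hz1 i
              rcases ha01 i with h | h <;> rw [h, abs_le] <;> constructor <;> linarith
          _ ≤ 1 := hq'

/-- **Beck-Fiala**, `ℓ₁` version with individual error bounds. -/
theorem beck_fiala {Q ι : Type*} [Fintype Q] [Fintype ι] (B : Q → ι → ℝ) (e : Q → ℝ)
    (he : ∀ q, 0 < e q) (hB : ∀ i, ∑ q, |B q i| / e q ≤ 1) (x : ι → ℝ) :
    ∃ a : ι → ℤ, (∀ i, |x i - a i| ≤ 1) ∧ ∀ q, |∑ i, (x i - a i) * B q i| ≤ e q := by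
  classical
  obtain ⟨a, ha01, -, haq⟩ := bf_unit (fun q i => B q i / e q) (fun i => by
    have : ∀ q, |B q i / e q| = |B q i| / e q := fun q => by rw [abs_div, abs_of_pos (he q)]
    simp_rw [this]
    exact hB i) _ (fun i => Int.fract (x i)) (fun i => Int.fract_nonneg _)
    (fun i => (Int.fract_lt_one _).le) rfl
  have hint : ∀ i, ∃ b : ℤ, (b : ℝ) = a i := by
    intro i
    rcases ha01 i with h | h
    · exact ⟨0, by simp [h]⟩
    · exact ⟨1, by simp [h]⟩
  choose b hb using hint
  have hxa : ∀ i, x i - ((⌊x i⌋ + b i : ℤ) : ℝ) = Int.fract (x i) - a i := by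
    intro i
    rw [← hb i, Int.cast_add, Int.fract]
    ring
  refine ⟨fun i => ⌊x i⌋ + b i, fun i => ?_, fun q => ?_⟩
  · rw [hxa i]
    have h0 := Int.fract_nonneg (x i)
    have h1 := Int.fract_lt_one (x i)
    rcases ha01 i with h | h <;> rw [h, abs_le] <;> constructor <;> linarith
  · have h1 := haq q
    have h2 : ∑ i, B q i / e q * (Int.fract (x i) - a i) =
        (∑ i, (x i - ((⌊x i⌋ + b i : ℤ) : ℝ)) * B q i) / e q := by
      rw [Finset.sum_div]
      refine Finset.sum_congr rfl fun i _ => ?_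
      rw [hxa i]
      ring
    rw [h2, abs_div, abs_of_pos (he q), div_le_one (he q)] at h1
    exact h1

end Pool.Agent.Lib.MP_183cce_co
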