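import Pool.Agent.Lib.MP_183cce_co.BF

/-!
# Codes

A family of vectors `g · i` (indexed by `i`, with coordinates `p`) has a *code* with parameters
`α, β` when every coordinate functional is a combination with coefficients in `[-1, 1]` of at most
`α` elements of a finite list of linear functionals, and the sum of the absolute values of all the
functionals of the list on every vector of the family is at most `β`.
-/

set_option autoImplicit false

namespace Pool.Agent.Lib.MP_183cce_co

/-- the family `g` has a code with parameters `α`, `β` -/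
def HasCode {X ι : Type} (κ A : Type) (g : X → ι → ℝ) (α β : ℝ) : Prop :=
  ∃ (Q : Finset κ) (B : κ → ι → ℝ) (S : Finset A) (c : X → A → ℝ) (q : X → A → κ),
    (∀ p, ∀ a ∈ S, q p a ∈ Q) ∧ (∀ p a, |c p a| ≤ 1) ∧ (S.card : ℝ) ≤ α ∧
    (∀ i, ∑ y ∈ Q, |B y i| ≤ β) ∧ ∀ p i, g p i = ∑ a ∈ S, c p a * B (q p a) i

theorem HasCode.tensor {d : ℕ} {X : Fin d → Type} {ι κ A : Type} (g : ∀ k, X k → ι → ℝ)
    (α β : Fin d → ℝ) (h : ∀ k, HasCode κ A (g k) (α k) (β k)) :
    HasCode (Fin d → κ) (Fin d → A) (fun (p : ∀ k, X k) i => ∏ k, g k (p k) i)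
      (∏ k, α k) (∏ k, β k) := by
  classical
  choose Q B S c q h1 h2 h3 h4 h5 using h
  refine ⟨Fintype.piFinset Q, fun y i => ∏ k, B k (y k) i, Fintype.piFinset S,
    fun p a => ∏ k, c k (p k) (a k), fun p a k => q k (p k) (a k), ?_, ?_, ?_, ?_, ?_⟩
  · intro p a ha
    rw [Fintype.mem_piFinset] at ha ⊢
    exact fun k => h1 k (p k) (a k) (ha k)
  · intro p a
    rw [Finset.abs_prod]
    exact Finset.prod_le_one (fun k _ => abs_nonneg _) (fun k _ => h2 k _ _)
  · rw [Fintype.card_piFinset, Nat.cast_prod]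
    exact Finset.prod_le_prod (fun k _ => Nat.cast_nonneg _) (fun k _ => h3 k)
  · intro i
    have e1 : ∑ y ∈ Fintype.piFinset Q, |∏ k, B k (y k) i|
        = ∏ k, ∑ y ∈ Q k, |B k y i| := by
      rw [Finset.prod_univ_sum]
      exact Finset.sum_congr rfl fun y _ => Finset.abs_prod _ _
    rw [e1]
    exact Finset.prod_le_prod (fun k _ => Finset.sum_nonneg fun y _ => abs_nonneg _)
      (fun k _ => h4 k i)
  · intro p i
    have e1 : ∏ k, g k (p k) i = ∏ k, ∑ a ∈ S k, c k (p k) a * B k (q k (p k) a) i :=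
      Finset.prod_congr rfl fun k _ => h5 k (p k) i
    simp only
    rw [e1, Finset.prod_univ_sum]
    exact Finset.sum_congr rfl fun a _ => Finset.prod_mul_distrib

theorem HasCode.hull {X ι κ A : Type} {R : ℕ} {g : X → ι × Fin R → ℝ} {α β : ℝ}
    (lam : ι → Fin R → ℝ) (hl : ∀ i, ∑ ρ, |lam i ρ| ≤ 1) (hβ : 0 ≤ β)
    (h : HasCode κ A g α β) :
    HasCode κ A (fun p i => ∑ ρ, lam i ρ * g p (i, ρ)) α β := by
  obtain ⟨Q, B, S, c, q, h1, h2, h3, h4, h5⟩ := h
  refine ⟨Q, fun y i => ∑ ρ, lam i ρ * B y (i, ρ), S, c, q, h1, h2, h3, ?_, ?_⟩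
  · intro i
    calc ∑ y ∈ Q, |∑ ρ, lam i ρ * B y (i, ρ)|
        ≤ ∑ y ∈ Q, ∑ ρ, |lam i ρ| * |B y (i, ρ)| := by
          refine Finset.sum_le_sum fun y _ => ?_
          refine (Finset.abs_sum_le_sum_abs _ _).trans_eq ?_
          exact Finset.sum_congr rfl fun ρ _ => abs_mul _ _
      _ = ∑ ρ, |lam i ρ| * ∑ y ∈ Q, |B y (i, ρ)| := by
          rw [Finset.sum_comm]
          exact Finset.sum_congr rfl fun ρ _ => (Finset.mul_sum _ _ _).symm
      _ ≤ ∑ ρ, |lam i ρ| * β :=
          Finset.sum_le_sum fun ρ _ => mul_le_mul_of_nonneg_left (h4 _) (abs_nonneg _)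
      _ = (∑ ρ, |lam i ρ|) * β := (Finset.sum_mul _ _ _).symm
      _ ≤ 1 * β := mul_le_mul_of_nonneg_right (hl i) hβ
      _ = β := one_mul _
  · intro p i
    simp only
    calc ∑ ρ, lam i ρ * g p (i, ρ)
        = ∑ ρ, ∑ a ∈ S, c p a * (lam i ρ * B (q p a) (i, ρ)) := by
          refine Finset.sum_congr rfl fun ρ _ => ?_
          rw [h5, Finset.mul_sum]
          exact Finset.sum_congr rfl fun a _ => by ring
      _ = ∑ a ∈ S, c p a * ∑ ρ, lam i ρ * B (q p a) (i, ρ) := by
          rw [Finset.sum_comm]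
          exact Finset.sum_congr rfl fun a _ => (Finset.mul_sum _ _ _).symm

/-- rounding for finitely many coded levels and one uncoded part -/
theorem multi_level {X ι J κ A : Type} [Fintype X] [Fintype ι] [Fintype J]
    (g : J → X → ι → ℝ) (α β : J → ℝ) (hα : ∀ j, 0 < α j) (hβ : ∀ j, 0 < β j)
    (h : ∀ j, HasCode κ A (g j) (α j) (β j)) (low : X → ι → ℝ) (β0 : ℝ) (hβ0 : 0 < β0)
    (hlow : ∀ i, ∑ p, |low p i| ≤ β0) (x : ι → ℝ) :
    ∃ a : ι → ℤ, (∀ i, |x i - a i| ≤ 1) ∧
      ∀ p, |∑ i, (x i - a i) * (low p i + ∑ j, g j p i)|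
        ≤ 2 * β0 + 2 * (∑ j, √(α j * β j)) ^ 2 := by
  classical
  choose Q B S c q h1 h2 h3 h4 h5 using h
  let s : ℝ := ∑ j, √(α j * β j)
  let ej : J → ℝ := fun j => 2 * s * √(β j / α j)
  have hs : ∀ j : J, 0 < s := fun j =>
    Finset.sum_pos' (fun j _ => Real.sqrt_nonneg _)
      ⟨j, Finset.mem_univ _, Real.sqrt_pos.2 (mul_pos (hα j) (hβ j))⟩
  have hej : ∀ j, 0 < ej j := fun j =>
    mul_pos (mul_pos two_pos (hs j)) (Real.sqrt_pos.2 (div_pos (hβ j) (hα j)))
  have hprod : ∀ j, √(β j / α j) * √(α j * β j) = β j := fun j => by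
    rw [← Real.sqrt_mul (div_pos (hβ j) (hα j)).le]
    have : β j / α j * (α j * β j) = β j * β j := by
      field_simp [(hα j).ne']
    rw [this, Real.sqrt_mul_self (hβ j).le]
  have hprod2 : ∀ j, α j * √(β j / α j) = √(α j * β j) := fun j => by
    have hb : √(β j / α j) ≠ 0 := (Real.sqrt_pos.2 (div_pos (hβ j) (hα j))).ne'
    have e2 : √(β j / α j) * √(β j / α j) = β j / α j :=
      Real.mul_self_sqrt (div_pos (hβ j) (hα j)).le
    have e3 : √(β j / α j) * (α j * √(β j / α j)) = √(β j / α j) * √(α j * β j) := by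
      rw [hprod j]
      calc √(β j / α j) * (α j * √(β j / α j)) = α j * (√(β j / α j) * √(β j / α j)) := by ring
        _ = β j := by rw [e2]; field_simp [(hα j).ne']
    exact mul_left_cancel₀ hb e3
  let BB : X ⊕ (Σ j : J, {y // y ∈ Q j}) → ι → ℝ := fun y i =>
    Sum.elim (fun p => low p i) (fun z => B z.1 z.2.1 i) y
  let ee : X ⊕ (Σ j : J, {y // y ∈ Q j}) → ℝ := fun y =>
    Sum.elim (fun _ => 2 * β0) (fun z => ej z.1) y
  have hee : ∀ y, 0 < ee y := by
    rintro (p | z)
    · simp only [ee, Sum.elim_inl]; linarith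
    · simp only [ee, Sum.elim_inr]; exact hej _
  have hB : ∀ i, ∑ y, |BB y i| / ee y ≤ 1 := by
    intro i
    have e1 : ∑ y, |BB y i| / ee y
        = (∑ p, |low p i| / (2 * β0)) + ∑ j, ∑ y ∈ Q j, |B j y i| / ej j := by
      rw [Fintype.sum_sum_type, Fintype.sum_sigma]
      congr 1
      refine Finset.sum_congr rfl fun j _ => ?_
      simp only [BB, ee, Sum.elim_inr]
      exact Finset.sum_coe_sort (Q j) (fun y => |B j y i| / ej j)
    rw [e1]
    have e2 : ∑ p, |low p i| / (2 * β0) ≤ 1 / 2 := by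
      rw [← Finset.sum_div, div_le_iff₀ (by linarith)]
      have := hlow i
      linarith
    have e3 : ∑ j, ∑ y ∈ Q j, |B j y i| / ej j ≤ 1 / 2 := by
      have e6 : ∀ j, ∑ y ∈ Q j, |B j y i| / ej j ≤ √(α j * β j) / (2 * s) := by
        intro j
        have hb : 0 < √(β j / α j) := Real.sqrt_pos.2 (div_pos (hβ j) (hα j))
        rw [← Finset.sum_div]
        calc (∑ y ∈ Q j, |B j y i|) / ej j ≤ β j / ej j :=
              div_le_div_of_nonneg_right (h4 j i) (hej j).le
          _ = √(α j * β j) / (2 * s) := by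
              have hs' := hs j
              rw [div_eq_div_iff (hej j).ne' (by positivity)]
              simp only [ej]
              calc β j * (2 * s) = √(β j / α j) * √(α j * β j) * (2 * s) := by rw [hprod j]
                _ = √(α j * β j) * (2 * s * √(β j / α j)) := by ring
      refine (Finset.sum_le_sum fun j _ => e6 j).trans ?_
      rw [← Finset.sum_div]
      rcases isEmpty_or_nonempty J with hJ | ⟨⟨j⟩⟩
      · simp
      · have hs' := hs j
        rw [div_le_iff₀ (by linarith)]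
        simp only [s]
        linarith
    linarith
  obtain ⟨a, ha1, ha2⟩ := beck_fiala BB ee hee hB x
  refine ⟨a, ha1, fun p => ?_⟩
  have e1 : ∑ i, (x i - a i) * (low p i + ∑ j, g j p i)
      = (∑ i, (x i - a i) * low p i) + ∑ j, ∑ i, (x i - a i) * g j p i := by
    rw [Finset.sum_comm, ← Finset.sum_add_distrib]
    refine Finset.sum_congr rfl fun i _ => ?_
    rw [mul_add, Finset.mul_sum]
  rw [e1]
  refine (abs_add_le _ _).trans (add_le_add ?_ ?_)
  · simpa [BB, ee] using ha2 (Sum.inl p)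
  · refine (Finset.abs_sum_le_sum_abs _ _).trans ?_
    have e4 : 2 * (∑ j, √(α j * β j)) ^ 2 = ∑ j, 2 * s * √(α j * β j) := by
      rw [← Finset.mul_sum]
      simp only [s]
      ring
    rw [e4]
    refine Finset.sum_le_sum fun j _ => ?_
    have e5 : ∑ i, (x i - a i) * g j p i
        = ∑ y ∈ S j, c j p y * ∑ i, (x i - a i) * B j (q j p y) i := by
      calc ∑ i, (x i - a i) * g j p i
          = ∑ i, ∑ y ∈ S j, c j p y * ((x i - a i) * B j (q j p y) i) := by
            refine Finset.sum_congr rfl fun i _ => ?_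
            rw [h5, Finset.mul_sum]
            exact Finset.sum_congr rfl fun y _ => by ring
        _ = _ := by
            rw [Finset.sum_comm]
            exact Finset.sum_congr rfl fun y _ => (Finset.mul_sum _ _ _).symm
    rw [e5]
    calc |∑ y ∈ S j, c j p y * ∑ i, (x i - a i) * B j (q j p y) i|
        ≤ ∑ y ∈ S j, |c j p y * ∑ i, (x i - a i) * B j (q j p y) i| :=
          Finset.abs_sum_le_sum_abs _ _
      _ ≤ ∑ y ∈ S j, ej j := by
          refine Finset.sum_le_sum fun y hy => ?_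
          rw [abs_mul]
          have hq := ha2 (Sum.inr ⟨j, ⟨q j p y, h1 j p y hy⟩⟩)
          simp only [BB, ee, Sum.elim_inr] at hq
          calc |c j p y| * |∑ i, (x i - a i) * B j (q j p y) i|
              ≤ 1 * ej j := mul_le_mul (h2 j p y) hq (abs_nonneg _) zero_le_one
            _ = ej j := one_mul _
      _ = ((S j).card : ℝ) * ej j := by rw [Finset.sum_const, nsmul_eq_mul]
      _ ≤ α j * ej j := mul_le_mul_of_nonneg_right (h3 j) (hej j).le
      _ = 2 * s * √(α j * β j) := by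
          rw [← hprod2 j]
          simp only [ej]
          ring

end Pool.Agent.Lib.MP_183cce_co
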