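import Pool.Agent.Lib.MP_183cce_co.Multi

/-!
# Rounding for the absolutely convex hull of products of functions of small truncated variation
-/

set_option autoImplicit false

namespace Pool.Agent.Lib.MP_183cce_co

/-- `f` has Euclidean norm at most `1`, and for every `j` the layer of `f` at heights between
`2^{-(j+1)}` and `2^{-j}` has total variation at most `K 2^{-δ j} / r j` along one of the `r j`
orderings `π j s`, `s < r j` -/
structure Tame (m : ℕ) (r : ℕ → ℕ) (π : ℕ → ℕ → Equiv.Perm (Fin m)) (K δ : ℝ) (f : Fin m → ℝ) :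
    Prop where
  norm_le : ∑ p, f p ^ 2 ≤ 1
  var_le : ∀ j : ℕ, ∃ s, s < r j ∧
    (r j : ℝ) * variation m (fun p => layer j (f (π j s p))) ≤ K * (2 : ℝ) ^ (-δ * j)

theorem prod_sum_layer {d M : ℕ} (y : Fin d → ℝ) :
    ∏ k, ∑ j ∈ Finset.range M, layer j (y k) = ∑ j ∈ lvl d M, ∏ k, layer (j k) (y k) := by
  classical
  rw [Finset.prod_univ_sum]
  rfl

theorem sum_low_high {d M t : ℕ} (F : (Fin d → ℕ) → ℝ) :
    ∑ j ∈ (lvl d M).filter (fun j => wt j < t), F j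
      + ∑ j ∈ (lvl d M).filter (fun j => t ≤ wt j), F j = ∑ j ∈ lvl d M, F j := by
  classical
  rw [← Finset.sum_filter_add_sum_filter_not (lvl d M) (fun j => wt j < t) F]
  congr 1
  refine Finset.sum_congr ?_ fun _ _ => rfl
  ext j
  simp only [Finset.mem_filter, not_lt]

theorem hasCode_level {d n R : ℕ} {m : Fin d → ℕ} {r : Fin d → ℕ → ℕ}
    {π : ∀ k, ℕ → ℕ → Equiv.Perm (Fin (m k))} {K δ : ℝ} (hK : 0 < K)
    {lam : Fin n → Fin R → ℝ} {f : Fin n → Fin R → ∀ k, Fin (m k) → ℝ}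
    (hf : ∀ i ρ k, Tame (m k) (r k) (π k) K δ (f i ρ k)) (hr : ∀ k j, 0 < r k j)
    (hlam : ∀ i, ∑ ρ, |lam i ρ| ≤ 1) (j : Fin d → ℕ) :
    HasCode (Fin d → ℕ × ℕ × ℕ) (Fin d → ℕ × ℕ)
      (fun (p : ∀ k, Fin (m k)) i => ∑ ρ, lam i ρ * ∏ k, layer (j k) (f i ρ k (p k)))
      (∏ k, ((r k (j k) : ℝ) * (((2 * (j k + 1) : ℕ) : ℝ) + 1)))
      (∏ k, ((((2 * (j k + 1) : ℕ) : ℝ) + 1) * (K * (2 : ℝ) ^ (-δ * (j k : ℝ)) / r k (j k)))) := by
  have hτ : ∀ k, (0 : ℝ) < (2 : ℝ) ^ (-δ * (j k : ℝ)) := fun k => Real.rpow_pos_of_pos two_pos _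
  have hr' : ∀ k, (0 : ℝ) < r k (j k) := fun k => by exact_mod_cast hr k (j k)
  have h := HasCode.tensor (ι := Fin n × Fin R) (κ := ℕ × ℕ × ℕ) (A := ℕ × ℕ)
    (X := fun k => Fin (m k)) (fun k p i => layer (j k) (f i.1 i.2 k p))
    (fun k => (r k (j k) : ℝ) * (((2 * (j k + 1) : ℕ) : ℝ) + 1))
    (fun k => (((2 * (j k + 1) : ℕ) : ℝ) + 1) * (K * (2 : ℝ) ^ (-δ * (j k : ℝ)) / r k (j k)))
    (fun k => by
      refine hasCode_oneDim (L := 2 * (j k + 1)) (π k (j k)) _ _ (fun i => ?_) (fun i => ?_)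
      · obtain ⟨s, hs1, hs2⟩ := (hf i.1 i.2 k).var_le (j k)
        refine ⟨s, hs1, ?_⟩
        rw [le_div_iff₀ (hr' k), mul_comm]
        exact hs2
      · exact layer_supp_card (f i.1 i.2 k) (hf i.1 i.2 k).norm_le (j k))
  exact HasCode.hull (g := fun (p : ∀ k, Fin (m k)) (i : Fin n × Fin R) =>
    ∏ k, layer (j k) (f i.1 i.2 k (p k))) lam hlam
    (Finset.prod_nonneg fun k _ => mul_nonneg (by positivity)
      (div_nonneg (mul_nonneg hK.le (hτ k).le) (hr' k).le)) h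

theorem low_l1 {d M t m' : ℕ} {m : Fin (d + 1) → ℕ} (lam : Fin m' → ℝ) (hlam : ∑ ρ, |lam ρ| ≤ 1)
    (f : Fin m' → ∀ k, Fin (m k) → ℝ) (hf : ∀ ρ k, ∑ p, f ρ k p ^ 2 ≤ 1) :
    ∑ p : (∀ k, Fin (m k)), |∑ ρ, lam ρ * ∑ j ∈ (lvl (d + 1) M).filter (fun j => wt j < t),
      ∏ k, layer (j k) (f ρ k (p k))| ≤ ((t : ℝ) + 1) ^ d * 2 ^ t := by
  classical
  have h1 : ∀ ρ, ∑ p : (∀ k, Fin (m k)), |∑ j ∈ (lvl (d + 1) M).filter (fun j => wt j < t),
      ∏ k, layer (j k) (f ρ k (p k))| ≤ ((t : ℝ) + 1) ^ d * 2 ^ t := by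
    intro ρ
    calc ∑ p : (∀ k, Fin (m k)), |∑ j ∈ (lvl (d + 1) M).filter (fun j => wt j < t),
          ∏ k, layer (j k) (f ρ k (p k))|
        ≤ ∑ p : (∀ k, Fin (m k)), ∑ j ∈ (lvl (d + 1) M).filter (fun j => wt j < t),
            ∏ k, |layer (j k) (f ρ k (p k))| := by
          refine Finset.sum_le_sum fun p _ => (Finset.abs_sum_le_sum_abs _ _).trans_eq ?_
          exact Finset.sum_congr rfl fun j _ => Finset.abs_prod _ _
      _ = ∑ j ∈ (lvl (d + 1) M).filter (fun j => wt j < t),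
            ∏ k, ∑ p : Fin (m k), |layer (j k) (f ρ k p)| := by
          rw [Finset.sum_comm]
          refine Finset.sum_congr rfl fun j _ => ?_
          rw [Finset.prod_univ_sum, Fintype.piFinset_univ]
      _ ≤ ∑ j ∈ (lvl (d + 1) M).filter (fun j => wt j < t), (2 : ℝ) ^ wt j := by
          refine Finset.sum_le_sum fun j _ => ?_
          have h2 : (2 : ℝ) ^ wt j = ∏ k, (2 : ℝ) ^ j k := by
            rw [Finset.prod_pow_eq_pow_sum]; rfl
          rw [h2]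
          exact Finset.prod_le_prod (fun k _ => Finset.sum_nonneg fun p _ => abs_nonneg _)
            (fun k _ => layer_l1 (f ρ k) (hf ρ k) (j k))
      _ ≤ _ := low_sum_le d M t
  calc ∑ p : (∀ k, Fin (m k)), |∑ ρ, lam ρ * ∑ j ∈ (lvl (d + 1) M).filter (fun j => wt j < t),
        ∏ k, layer (j k) (f ρ k (p k))|
      ≤ ∑ p : (∀ k, Fin (m k)), ∑ ρ, |lam ρ| *
          |∑ j ∈ (lvl (d + 1) M).filter (fun j => wt j < t),
            ∏ k, layer (j k) (f ρ k (p k))| := by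
        refine Finset.sum_le_sum fun p _ => (Finset.abs_sum_le_sum_abs _ _).trans_eq ?_
        exact Finset.sum_congr rfl fun ρ _ => abs_mul _ _
    _ = ∑ ρ, |lam ρ| * ∑ p : (∀ k, Fin (m k)),
          |∑ j ∈ (lvl (d + 1) M).filter (fun j => wt j < t),
            ∏ k, layer (j k) (f ρ k (p k))| := by
        rw [Finset.sum_comm]
        exact Finset.sum_congr rfl fun ρ _ => (Finset.mul_sum _ _ _).symm
    _ ≤ ∑ ρ, |lam ρ| * (((t : ℝ) + 1) ^ d * 2 ^ t) :=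
        Finset.sum_le_sum fun ρ _ => mul_le_mul_of_nonneg_left (h1 ρ) (abs_nonneg _)
    _ = (∑ ρ, |lam ρ|) * (((t : ℝ) + 1) ^ d * 2 ^ t) := (Finset.sum_mul _ _ _).symm
    _ ≤ 1 * (((t : ℝ) + 1) ^ d * 2 ^ t) := mul_le_mul_of_nonneg_right hlam (by positivity)
    _ = _ := one_mul _

/-- the quantitative rounding statement with the cut-off `t` and the truncation `M` -/
theorem core {d n R : ℕ} {m : Fin (d + 1) → ℕ} {r : Fin (d + 1) → ℕ → ℕ}
    {π : ∀ k, ℕ → ℕ → Equiv.Perm (Fin (m k))} {K δ : ℝ} (hK : 0 < K)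
    {lam : Fin n → Fin R → ℝ} {f : Fin n → Fin R → ∀ k, Fin (m k) → ℝ}
    (hf : ∀ i ρ k, Tame (m k) (r k) (π k) K δ (f i ρ k)) (hr : ∀ k j, 0 < r k j)
    (hlam : ∀ i, ∑ ρ, |lam i ρ| ≤ 1) (t M : ℕ) (x : Fin n → ℝ) :
    ∃ a : Fin n → ℤ, (∀ i, |x i - a i| ≤ 1) ∧ ∀ p : (∀ k, Fin (m k)),
      |∑ i, (x i - a i) * ∑ ρ, lam i ρ * ∏ k, f i ρ k (p k)|
        ≤ 2 * (((t : ℝ) + 1) ^ d * 2 ^ t)
          + 2 * (∑ j ∈ (lvl (d + 1) M).filter (fun j => t ≤ wt j),
              ∏ k, ((2 * (j k : ℝ) + 3) * √(K * (2 : ℝ) ^ (-δ * (j k : ℝ))))) ^ 2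
          + n * ((d + 1) * (1 / 2) ^ M) := by
  classical
  have hr' : ∀ k j, (0 : ℝ) < r k j := fun k j => by exact_mod_cast hr k j
  have hτ : ∀ j : ℕ, (0 : ℝ) < (2 : ℝ) ^ (-δ * (j : ℝ)) := fun j => Real.rpow_pos_of_pos two_pos _
  let Jt := {j : Fin (d + 1) → ℕ // j ∈ (lvl (d + 1) M).filter (fun j => t ≤ wt j)}
  let α : Jt → ℝ := fun j => ∏ k, ((r k (j.1 k) : ℝ) * (((2 * (j.1 k + 1) : ℕ) : ℝ) + 1))
  let β : Jt → ℝ := fun j => ∏ k, ((((2 * (j.1 k + 1) : ℕ) : ℝ) + 1)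
    * (K * (2 : ℝ) ^ (-δ * (j.1 k : ℝ)) / r k (j.1 k)))
  have hα : ∀ j, 0 < α j := fun j => Finset.prod_pos fun k _ =>
    mul_pos (hr' k _) (by positivity)
  have hβ : ∀ j, 0 < β j := fun j => Finset.prod_pos fun k _ =>
    mul_pos (by positivity) (div_pos (mul_pos hK (hτ _)) (hr' k _))
  obtain ⟨a, ha1, ha2⟩ := multi_level (X := ∀ k, Fin (m k)) (ι := Fin n) (J := Jt)
    (κ := Fin (d + 1) → ℕ × ℕ × ℕ) (A := Fin (d + 1) → ℕ × ℕ)
    (fun j p i => ∑ ρ, lam i ρ * ∏ k, layer (j.1 k) (f i ρ k (p k))) α β hα hβ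
    (fun j => hasCode_level hK hf hr hlam j.1)
    (fun p i => ∑ ρ, lam i ρ * ∑ j ∈ (lvl (d + 1) M).filter (fun j => wt j < t),
      ∏ k, layer (j k) (f i ρ k (p k)))
    (((t : ℝ) + 1) ^ d * 2 ^ t) (by positivity)
    (fun i => low_l1 (lam i) (hlam i) (f i) (fun ρ k => (hf i ρ k).norm_le)) x
  refine ⟨a, ha1, fun p => ?_⟩
  have hmain : ∀ i, (∑ ρ, lam i ρ * ∑ j ∈ (lvl (d + 1) M).filter (fun j => wt j < t),
      ∏ k, layer (j k) (f i ρ k (p k))) + ∑ j : Jt, ∑ ρ, lam i ρ *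
        ∏ k, layer (j.1 k) (f i ρ k (p k))
      = ∑ ρ, lam i ρ * ∏ k, ∑ j ∈ Finset.range M, layer j (f i ρ k (p k)) := by
    intro i
    rw [Finset.sum_comm, ← Finset.sum_add_distrib]
    refine Finset.sum_congr rfl fun ρ _ => ?_
    rw [← Finset.mul_sum, ← mul_add, prod_sum_layer, ← sum_low_high (t := t)]
    congr 2
    exact Finset.sum_coe_sort ((lvl (d + 1) M).filter (fun j => t ≤ wt j))
      (fun j => ∏ k, layer (j k) (f i ρ k (p k)))
  have h2 := ha2 p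
  have e1 : ∑ i, (x i - a i) * ∑ ρ, lam i ρ * ∏ k, f i ρ k (p k)
      = ∑ i, (x i - a i) * ((∑ ρ, lam i ρ * ∑ j ∈ (lvl (d + 1) M).filter (fun j => wt j < t),
      ∏ k, layer (j k) (f i ρ k (p k))) + ∑ j : Jt, ∑ ρ, lam i ρ *
        ∏ k, layer (j.1 k) (f i ρ k (p k)))
      + ∑ i, (x i - a i) * ∑ ρ, lam i ρ * (∏ k, f i ρ k (p k)
          - ∏ k, ∑ j ∈ Finset.range M, layer j (f i ρ k (p k))) := by
    rw [← Finset.sum_add_distrib]
    refine Finset.sum_congr rfl fun i _ => ?_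
    rw [hmain i, ← mul_add, ← Finset.sum_add_distrib]
    congr 1
    exact Finset.sum_congr rfl fun ρ _ => by ring
  rw [e1]
  refine (abs_add_le _ _).trans (add_le_add (h2.trans (le_of_eq ?_)) ?_)
  · congr 3
    rw [← Finset.sum_coe_sort ((lvl (d + 1) M).filter (fun j => t ≤ wt j))
      (fun j => ∏ k, ((2 * (j k : ℝ) + 3) * √(K * (2 : ℝ) ^ (-δ * (j k : ℝ)))))]
    refine Finset.sum_congr rfl fun j _ => ?_
    have e2 : α j * β j
        = (∏ k, ((2 * (j.1 k : ℝ) + 3) * √(K * (2 : ℝ) ^ (-δ * (j.1 k : ℝ))))) ^ 2 := by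
      simp only [α, β]
      rw [← Finset.prod_mul_distrib, ← Finset.prod_pow]
      refine Finset.prod_congr rfl fun k _ => ?_
      rw [mul_pow, Real.sq_sqrt (mul_pos hK (hτ _)).le]
      have hrk := (hr' k (j.1 k)).ne'
      push_cast
      field_simp
      ring
    rw [e2, Real.sqrt_sq (Finset.prod_nonneg fun k _ => by positivity)]
  · have hone : ∀ i ρ k, |f i ρ k (p k)| ≤ 1 := fun i ρ k =>
      abs_le_one_of_sq (f i ρ k) (hf i ρ k).norm_le (p k)
    calc |∑ i, (x i - a i) * ∑ ρ, lam i ρ * (∏ k, f i ρ k (p k)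
          - ∏ k, ∑ j ∈ Finset.range M, layer j (f i ρ k (p k)))|
        ≤ ∑ i, |(x i - a i) * ∑ ρ, lam i ρ * (∏ k, f i ρ k (p k)
          - ∏ k, ∑ j ∈ Finset.range M, layer j (f i ρ k (p k)))| :=
          Finset.abs_sum_le_sum_abs _ _
      _ ≤ ∑ _i : Fin n, (((d : ℝ) + 1) * (1 / 2) ^ M) := by
          refine Finset.sum_le_sum fun i _ => ?_
          rw [abs_mul]
          have h3 : |∑ ρ, lam i ρ * (∏ k, f i ρ k (p k)
              - ∏ k, ∑ j ∈ Finset.range M, layer j (f i ρ k (p k)))|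
              ≤ ((d : ℝ) + 1) * (1 / 2) ^ M := by
            calc |∑ ρ, lam i ρ * (∏ k, f i ρ k (p k)
                - ∏ k, ∑ j ∈ Finset.range M, layer j (f i ρ k (p k)))|
                ≤ ∑ ρ, |lam i ρ| * (((d : ℝ) + 1) * (1 / 2) ^ M) := by
                  refine (Finset.abs_sum_le_sum_abs _ _).trans
                    (Finset.sum_le_sum fun ρ _ => ?_)
                  rw [abs_mul]
                  refine mul_le_mul_of_nonneg_left ?_ (abs_nonneg _)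
                  have h4 := abs_prod_sub_prod_le (Finset.univ : Finset (Fin (d + 1)))
                    (fun k => f i ρ k (p k))
                    (fun k => ∑ j ∈ Finset.range M, layer j (f i ρ k (p k)))
                    ((1 / 2) ^ M) (by positivity) (fun k _ => hone i ρ k)
                    (fun k _ => abs_sum_layer_le (hone i ρ k))
                    (fun k _ => abs_sub_sum_layer_le (hone i ρ k))
                  rw [Finset.card_univ, Fintype.card_fin] at h4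
                  push_cast at h4
                  exact h4
              _ = (∑ ρ, |lam i ρ|) * (((d : ℝ) + 1) * (1 / 2) ^ M) :=
                  (Finset.sum_mul _ _ _).symm
              _ ≤ 1 * (((d : ℝ) + 1) * (1 / 2) ^ M) :=
                  mul_le_mul_of_nonneg_right (hlam i) (by positivity)
              _ = _ := one_mul _
          calc |x i - a i| * _ ≤ 1 * (((d : ℝ) + 1) * (1 / 2) ^ M) :=
                mul_le_mul (ha1 i) h3 (abs_nonneg _) zero_le_one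
            _ = _ := one_mul _
      _ = n * ((d + 1) * (1 / 2) ^ M) := by
          rw [Finset.sum_const, Finset.card_univ, Fintype.card_fin, nsmul_eq_mul]

end Pool.Agent.Lib.MP_183cce_co
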