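import Pool.Agent.Lib.MP_183cce_co.Pieces

/-!
# Tensor products of functions with few monotone pieces, and grids
-/

set_option autoImplicit false

namespace Pool.Agent.Lib.MP_183cce_co

/-- every real combination of the vectors `v i` is within `B` in `ℓ∞` of an integer combination,
with the coefficients moved by at most `1` -/
def Rounds {X : Type} {n : ℕ} (v : Fin n → X → ℝ) (B : ℝ) : Prop :=
  ∀ x : Fin n → ℝ, ∃ a : Fin n → ℤ, (∀ i, |x i - a i| ≤ 1) ∧
    ∀ p, |∑ i, (x i - a i) * v i p| ≤ B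

/-- the `ℓ∞` covering radius of the integer span of the vectors `v i`, relative to their real span,
is at most `B` -/
def CoveringRadiusLE {X : Type} {n : ℕ} (v : Fin n → X → ℝ) (B : ℝ) : Prop :=
  ∀ y ∈ Submodule.span ℝ (Set.range v), ∃ z ∈ AddSubgroup.closure (Set.range v),
    ∀ p, |y p - z p| ≤ B

theorem Rounds.covering {X : Type} {n : ℕ} {v : Fin n → X → ℝ} {B : ℝ} (h : Rounds v B) :
    CoveringRadiusLE v B := by
  intro y hy
  obtain ⟨x, rfl⟩ := (Submodule.mem_span_range_iff_exists_fun ℝ).1 hy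
  obtain ⟨a, -, ha⟩ := h x
  refine ⟨∑ i, a i • v i, sum_mem fun i _ => (AddSubgroup.closure (Set.range v)).zsmul_mem
    (AddSubgroup.subset_closure (Set.mem_range_self i)) (a i), fun p => ?_⟩
  have e : (∑ i, x i • v i) p - (∑ i, a i • v i) p = ∑ i, (x i - a i) * v i p := by
    rw [Finset.sum_apply, Finset.sum_apply, ← Finset.sum_sub_distrib]
    refine Finset.sum_congr rfl fun i _ => ?_
    simp only [Pi.smul_apply, smul_eq_mul, zsmul_eq_mul]
    ring
  rw [e]
  exact ha p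

theorem Rounds.mono {X : Type} {n : ℕ} {v : Fin n → X → ℝ} {B B' : ℝ} (h : Rounds v B)
    (hB : B ≤ B') : Rounds v B' := fun x => by
  obtain ⟨a, h1, h2⟩ := h x
  exact ⟨a, h1, fun p => (h2 p).trans hB⟩

theorem pieces_bound (d : ℕ) :
    ∃ C : ℝ, 0 ≤ C ∧ ∀ (m : Fin (d + 1) → ℕ) (π : ∀ k, Equiv.Perm (Fin (m k))) (q : ℕ), 1 ≤ q →
      ∀ (n R : ℕ) (lam : Fin n → Fin R → ℝ) (f : Fin n → Fin R → ∀ k, Fin (m k) → ℝ),
      (∀ i ρ k, ∑ p, f i ρ k p ^ 2 ≤ 1) →
      (∀ i ρ k, Pieces q (m k) (fun p => f i ρ k (π k p))) → (∀ i, ∑ ρ, |lam i ρ| ≤ 1) →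
      Rounds (fun i (p : ∀ k, Fin (m k)) => ∑ ρ, lam i ρ * ∏ k, f i ρ k (p k))
        (C * (q : ℝ) ^ (((d : ℝ) + 1) / 2) * (1 + Real.log q) ^ (4 * d + 2)) := by
  obtain ⟨C, hC0, hC⟩ := main_bound d 1 one_pos
  refine ⟨C * 5 ^ (((d : ℝ) + 1) / 2) * (1 + Real.log 5) ^ (4 * d + 2), by
    have : 0 ≤ Real.log 5 := Real.log_nonneg (by norm_num)
    positivity, ?_⟩
  intro m π q hq n R lam f hf hp hlam
  have hq' : (1 : ℝ) ≤ q := by exact_mod_cast hq
  have hlogq : 0 ≤ Real.log q := Real.log_nonneg hq'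
  have hlog5 : 0 ≤ Real.log 5 := Real.log_nonneg (by norm_num)
  have htame : ∀ i ρ k, Tame (m k) (fun _ => 1) (fun _ _ => π k) (5 * q) 1 (f i ρ k) := by
    intro i ρ k
    refine ⟨hf i ρ k, fun j => ⟨0, one_pos, ?_⟩⟩
    have h1 := variation_le_of_pieces ((hp i ρ k).layer j) (h := (1 / 2) ^ (j + 1)) (by positivity)
      (fun p => abs_layer_le j _)
    have e2 : (2 : ℝ) ^ (-1 * (j : ℝ)) = (1 / 2) ^ j := by
      rw [Real.rpow_mul_natCast two_pos.le, Real.rpow_neg_one]
      norm_num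
    rw [e2, Nat.cast_one, one_mul]
    refine h1.trans ?_
    rw [pow_succ]
    have h3 : (0 : ℝ) < (1 / 2) ^ j := by positivity
    nlinarith
  have h := hC m (fun _ _ => 1) (fun k _ _ => π k) (5 * q) (by linarith) n R lam f htame hlam
  refine Rounds.mono (v := fun i (p : ∀ k, Fin (m k)) => ∑ ρ, lam i ρ * ∏ k, f i ρ k (p k)) h ?_
  have e1 : ((d : ℝ) + 1) / (1 + 1) = ((d : ℝ) + 1) / 2 := by norm_num
  rw [e1, Real.mul_rpow (by norm_num) (by linarith), Real.log_mul (by norm_num) (by linarith)]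
  have h2 : 1 + (Real.log 5 + Real.log q) ≤ (1 + Real.log 5) * (1 + Real.log q) := by
    nlinarith [mul_nonneg hlog5 hlogq]
  have h3 : (1 + (Real.log 5 + Real.log q)) ^ (4 * d + 2)
      ≤ (1 + Real.log 5) ^ (4 * d + 2) * (1 + Real.log q) ^ (4 * d + 2) := by
    rw [← mul_pow]
    exact pow_le_pow_left₀ (by positivity) h2 _
  calc C * (5 ^ (((d : ℝ) + 1) / 2) * (q : ℝ) ^ (((d : ℝ) + 1) / 2))
        * (1 + (Real.log 5 + Real.log q)) ^ (4 * d + 2)
      ≤ C * (5 ^ (((d : ℝ) + 1) / 2) * (q : ℝ) ^ (((d : ℝ) + 1) / 2))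
        * ((1 + Real.log 5) ^ (4 * d + 2) * (1 + Real.log q) ^ (4 * d + 2)) :=
        mul_le_mul_of_nonneg_left h3 (by positivity)
    _ = _ := by ring

/-- the sorting key: first the residue modulo `D`, then the quotient -/
def key (m D p : ℕ) : ℕ := (p % D) * m + p / D

theorem key_aux {m u v w y T : ℕ} (hu : u < m) (h1 : w * m + y ≤ v * m + u)
    (h2 : v * m + u < w * m + min (y + T) m) : v = w ∧ y ≤ u ∧ u < y + T := by
  have h3 : (w + 1) * m = w * m + m := by ring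
  have h3' : (v + 1) * m = v * m + m := by ring
  have h4 : v < w + 1 := by
    by_contra h
    have := Nat.mul_le_mul_right m (not_lt.1 h)
    omega
  have h5 : w < v + 1 := by
    by_contra h
    have h6 := Nat.mul_le_mul_right m (not_lt.1 h)
    omega
  have h7 : v = w := by omega
  subst h7
  exact ⟨rfl, by omega, by omega⟩

theorem mem_prog_iff {m D p a T : ℕ} (hD : 1 ≤ D) (hp : p < m) :
    (∃ t, t < T ∧ p = a + t * D) ↔
      ((a % D) * m + a / D ≤ key m D p ∧ key m D p < (a % D) * m + min (a / D + T) m) := by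
  have hpd : p / D < m := lt_of_le_of_lt (Nat.div_le_self _ _) hp
  unfold key
  constructor
  · rintro ⟨t, ht, hpa⟩
    have e1 : p % D = a % D := by rw [hpa, Nat.add_mul_mod_self_right]
    have e2 : p / D = a / D + t := by
      rw [hpa, Nat.add_mul_div_right _ _ (by omega)]
    rw [e1, e2]
    rw [e2] at hpd
    exact ⟨by omega, by omega⟩
  · rintro ⟨h1, h2⟩
    obtain ⟨h7, h10, h11⟩ := key_aux hpd h1 h2
    refine ⟨p / D - a / D, ?_, ?_⟩
    · generalize p / D = u at h10 h11 ⊢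
      generalize a / D = y at h10 h11 ⊢
      omega
    have h8 : p = D * (p / D) + p % D := (Nat.div_add_mod p D).symm
    have h9 : a = D * (a / D) + a % D := (Nat.div_add_mod a D).symm
    obtain ⟨s, hs⟩ := Nat.exists_eq_add_of_le h10
    rw [hs, Nat.add_sub_cancel_left]
    calc p = D * (p / D) + p % D := h8
      _ = D * (a / D + s) + a % D := by rw [hs, h7]
      _ = (D * (a / D) + a % D) + s * D := by ring
      _ = a + s * D := by rw [← h9]

open Classical in
/-- the normalised indicator function of an arithmetic progression -/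
noncomputable def progFun (m a D T : ℕ) (p : Fin m) : ℝ :=
  if ∃ t, t < T ∧ (p : ℕ) = a + t * D then 1 / √(T : ℝ) else 0

theorem progFun_sq (m a D T : ℕ) (hT : 1 ≤ T) :
    ∑ p, progFun m a D T p ^ 2 ≤ 1 := by
  classical
  have hT0 : (0 : ℝ) < T := by exact_mod_cast hT
  have e1 : ∀ p : Fin m, progFun m a D T p ^ 2
      = if ∃ t, t < T ∧ (p : ℕ) = a + t * D then 1 / (T : ℝ) else 0 := by
    intro p
    unfold progFun
    split_ifs
    · rw [div_pow, Real.sq_sqrt hT0.le, one_pow]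
    · simp
  rw [Finset.sum_congr rfl fun p _ => e1 p, ← Finset.sum_filter, Finset.sum_const, nsmul_eq_mul]
  have hcard : (Finset.univ.filter fun p : Fin m => ∃ t, t < T ∧ (p : ℕ) = a + t * D).card
      ≤ T := by
    have h1 : ((Finset.univ.filter fun p : Fin m => ∃ t, t < T ∧ (p : ℕ) = a + t * D).image
        (fun p : Fin m => (p : ℕ))).card ≤ ((Finset.range T).image fun t => a + t * D).card := by
      refine Finset.card_le_card ?_
      intro z hz
      obtain ⟨p, hp, rfl⟩ := Finset.mem_image.1 hz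
      obtain ⟨t, ht, hpt⟩ := (Finset.mem_filter.1 hp).2
      exact Finset.mem_image.2 ⟨t, Finset.mem_range.2 ht, hpt.symm⟩
    rw [Finset.card_image_of_injective _ Fin.val_injective] at h1
    exact h1.trans (Finset.card_image_le.trans_eq (Finset.card_range T))
  have hcard' : ((Finset.univ.filter fun p : Fin m => ∃ t, t < T ∧ (p : ℕ) = a + t * D).card : ℝ)
      ≤ T := by exact_mod_cast hcard
  rw [mul_one_div, div_le_one hT0]
  exact hcard'

theorem progFun_pieces (m a D T : ℕ) (hD : 1 ≤ D) :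
    Pieces 3 m (fun p => progFun m a D T (Tuple.sort (fun x : Fin m => key m D x) p)) := by
  classical
  have hsort := Tuple.monotone_sort (fun x : Fin m => key m D x)
  let lo := (a % D) * m + a / D
  let hi := (a % D) * m + min (a / D + T) m
  let cc : ℕ → Fin 3 := fun z => if z < lo then 0 else if z < hi then 1 else 2
  have hcc : Monotone cc := by
    intro x y hxy
    simp only [cc]
    split_ifs <;> omega
  refine ⟨fun p => cc (key m D (Tuple.sort (fun x : Fin m => key m D x) p)), fun p p' hpp => hcc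
    (hsort hpp), fun b => Or.inl fun p hp p' hp' _ => le_of_eq ?_⟩
  have hval : ∀ x : Fin m, progFun m a D T x = if cc (key m D x) = 1 then 1 / √(T : ℝ) else 0 := by
    intro x
    unfold progFun
    have h1 := mem_prog_iff (a := a) (T := T) hD x.isLt
    have h2 : cc (key m D x) = 1 ↔ lo ≤ key m D x ∧ key m D x < hi := by
      simp only [cc]
      split_ifs with h3 h4
      · simp; omega
      · simp; omega
      · simp; omega
    by_cases h3 : ∃ t, t < T ∧ (x : ℕ) = a + t * D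
    · rw [if_pos h3, if_pos (h2.2 (h1.1 h3))]
    · rw [if_neg h3, if_neg fun h => h3 (h1.2 (h2.1 h))]
  simp only [Set.mem_ofPred_eq] at hp hp'
  simp only [hval]
  rw [hp, hp']

theorem progFun_tame (m a D T : ℕ) (ε : ℝ) (h0 : 0 < ε) (h1 : ε ≤ 1 / 2) (hD : 1 ≤ D) (hT : 1 ≤ T)
    (hDT : (D : ℝ) ≤ (T : ℝ) ^ (1 / 2 - ε)) :
    Tame m (fun j => ⌊(2 : ℝ) ^ ((1 - 2 * ε) * ((j : ℝ) + 1))⌋₊ + 1)
      (fun _ s => Tuple.sort (fun x : Fin m => key m s x)) 26 (2 * ε) (progFun m a D T) := by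
  have hT0 : (0 : ℝ) < T := by exact_mod_cast hT
  refine ⟨progFun_sq m a D T hT, fun j => ?_⟩
  have hpow : ((1 : ℝ) / 2) ^ (j + 1) = (2 : ℝ) ^ (-((j : ℝ) + 1)) := by
    rw [Real.rpow_neg two_pos.le, one_div, inv_pow]
    congr 1
    rw [← Real.rpow_natCast]
    push_cast
    rfl
  rcases le_or_gt ((4 : ℝ) ^ (j + 1)) T with hTj | hTj
  · -- the layer vanishes
    refine ⟨0, Nat.succ_pos _, ?_⟩
    have hz : (fun p : Fin m => layer j (progFun m a D T
        (Tuple.sort (fun x : Fin m => key m 0 x) p))) = fun _ => 0 := by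
      funext p
      refine layer_eq_zero ?_
      unfold progFun
      split_ifs
      · rw [abs_of_nonneg (by positivity), one_div_pow]
        refine one_div_le_one_div_of_le (by positivity) ?_
        have h2 : (2 : ℝ) ^ (j + 1) = √(4 ^ (j + 1)) := by
          rw [eq_comm, Real.sqrt_eq_iff_mul_self_eq (by positivity) (by positivity), ← mul_pow]
          norm_num
        rw [h2]
        exact Real.sqrt_le_sqrt hTj
      · rw [abs_zero]; positivity
    have hv : variation m (fun p : Fin m => layer j (progFun m a D T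
        (Tuple.sort (fun x : Fin m => key m 0 x) p))) = 0 := by
      rw [hz]
      unfold variation ext
      refine Finset.sum_eq_zero fun p _ => ?_
      split_ifs <;> simp
    rw [hv, mul_zero]
    have : (0 : ℝ) < (2 : ℝ) ^ (-(2 * ε) * (j : ℝ)) := Real.rpow_pos_of_pos two_pos _
    linarith
  · have hDj : (D : ℝ) ≤ (2 : ℝ) ^ ((1 - 2 * ε) * ((j : ℝ) + 1)) := by
      refine hDT.trans ((Real.rpow_le_rpow hT0.le hTj.le (by linarith)).trans_eq ?_)
      have h4 : (4 : ℝ) ^ (j + 1) = (2 : ℝ) ^ (2 * ((j : ℝ) + 1)) := by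
        rw [Real.rpow_mul two_pos.le, ← Real.rpow_natCast]
        push_cast
        congr 1
        norm_num
      rw [h4, ← Real.rpow_mul two_pos.le]
      congr 1
      ring
    have h1r : (1 : ℝ) ≤ (2 : ℝ) ^ ((1 - 2 * ε) * ((j : ℝ) + 1)) :=
      Real.one_le_rpow one_le_two (mul_nonneg (by linarith) (by positivity))
    refine ⟨D, Nat.lt_succ_of_le (Nat.le_floor hDj), ?_⟩
    have hvar := variation_le_of_pieces ((progFun_pieces m a D T hD).layer j)
      (h := (1 / 2) ^ (j + 1)) (by positivity) (fun p => abs_layer_le j _)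
    have hv0 := variation_nonneg m (fun p : Fin m => layer j (progFun m a D T
        (Tuple.sort (fun x : Fin m => key m D x) p)))
    have hr : ((⌊(2 : ℝ) ^ ((1 - 2 * ε) * ((j : ℝ) + 1))⌋₊ + 1 : ℕ) : ℝ)
        ≤ 2 * (2 : ℝ) ^ ((1 - 2 * ε) * ((j : ℝ) + 1)) := by
      push_cast
      have := Nat.floor_le (a := (2 : ℝ) ^ ((1 - 2 * ε) * ((j : ℝ) + 1))) (by linarith)
      linarith
    have h13 : (1 / 2 : ℝ) ^ (j + 1) + 4 * (1 / 2) ^ (j + 1) * ((3 : ℕ) : ℝ)
        = 13 * (1 / 2) ^ (j + 1) := by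
      push_cast; ring
    rw [h13] at hvar
    refine (mul_le_mul hr hvar hv0 (by linarith)).trans ?_
    rw [hpow]
    have e1 : 2 * (2 : ℝ) ^ ((1 - 2 * ε) * ((j : ℝ) + 1)) * (13 * (2 : ℝ) ^ (-((j : ℝ) + 1)))
        = 26 * (2 : ℝ) ^ (-(2 * ε) * ((j : ℝ) + 1)) := by
      have : -(2 * ε) * ((j : ℝ) + 1) = (1 - 2 * ε) * ((j : ℝ) + 1) + -((j : ℝ) + 1) := by ring
      rw [this, Real.rpow_add two_pos]
      ring
    rw [e1]
    refine mul_le_mul_of_nonneg_left ?_ (by norm_num)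
    refine Real.rpow_le_rpow_of_exponent_le one_le_two ?_
    nlinarith

open Classical in
theorem grid_bound (d : ℕ) (ε : ℝ) (h0 : 0 < ε) (h1 : ε ≤ 1 / 2) :
    ∃ C : ℝ, 0 ≤ C ∧ ∀ (m : Fin (d + 1) → ℕ) (n R : ℕ) (lam : Fin n → Fin R → ℝ)
      (a D T : Fin n → Fin R → Fin (d + 1) → ℕ),
      (∀ i ρ k, 1 ≤ D i ρ k ∧ 1 ≤ T i ρ k ∧ (D i ρ k : ℝ) ≤ (T i ρ k : ℝ) ^ (1 / 2 - ε)) →
      (∀ i, ∑ ρ, |lam i ρ| ≤ 1) →
      Rounds (fun i (p : ∀ k, Fin (m k)) => ∑ ρ, lam i ρ *
        (if ∀ k, ∃ t, t < T i ρ k ∧ (p k : ℕ) = a i ρ k + t * D i ρ k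
          then 1 / √(∏ k, (T i ρ k : ℝ)) else 0)) C := by
  obtain ⟨C, hC0, hC⟩ := main_bound d (2 * ε) (by linarith)
  refine ⟨C * 26 ^ (((d : ℝ) + 1) / (1 + 2 * ε)) * (1 + Real.log 26) ^ (4 * d + 2), by
    have : 0 ≤ Real.log 26 := Real.log_nonneg (by norm_num)
    positivity, ?_⟩
  intro m n R lam a D T hDT hlam
  have h := hC m (fun _ j => ⌊(2 : ℝ) ^ ((1 - 2 * ε) * ((j : ℝ) + 1))⌋₊ + 1)
    (fun k _ s => Tuple.sort (fun x : Fin (m k) => key (m k) s x)) 26 (by norm_num) n R lam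
    (fun i ρ k => progFun (m k) (a i ρ k) (D i ρ k) (T i ρ k))
    (fun i ρ k => progFun_tame (m k) _ _ _ ε h0 h1 (hDT i ρ k).1 (hDT i ρ k).2.1 (hDT i ρ k).2.2)
    hlam
  have e : (fun (i : Fin n) (p : ∀ k, Fin (m k)) => ∑ ρ, lam i ρ *
        (if ∀ k, ∃ t, t < T i ρ k ∧ (p k : ℕ) = a i ρ k + t * D i ρ k
          then 1 / √(∏ k, (T i ρ k : ℝ)) else 0))
      = fun i p => ∑ ρ, lam i ρ * ∏ k, progFun (m k) (a i ρ k) (D i ρ k) (T i ρ k) (p k) := by
    funext i p
    refine Finset.sum_congr rfl fun ρ _ => ?_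
    congr 1
    have hsq : √(∏ k, (T i ρ k : ℝ)) = ∏ k, √(T i ρ k : ℝ) :=
      Real.sqrt_prod _ fun k _ => Nat.cast_nonneg _
    unfold progFun
    by_cases hall : ∀ k, ∃ t, t < T i ρ k ∧ (p k : ℕ) = a i ρ k + t * D i ρ k
    · rw [if_pos hall, hsq, one_div, ← Finset.prod_inv_distrib]
      refine Finset.prod_congr rfl fun k _ => ?_
      rw [if_pos (hall k), one_div]
    · rw [if_neg hall]
      push Not at hall
      obtain ⟨k, hk⟩ := hall
      refine (Finset.prod_eq_zero (Finset.mem_univ k) ?_).symm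
      rw [if_neg]
      rintro ⟨t, ht, hpt⟩
      exact hk t ht hpt
  rw [e]
  exact h

end Pool.Agent.Lib.MP_183cce_co
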