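import Pool.Agent.Lib.MP_183cce_co.OneDim

/-!
# Horizontal layers of a function
-/

set_option autoImplicit false

namespace Pool.Agent.Lib.MP_183cce_co

/-- the number `s` truncated to the interval `[-h, h]` -/
noncomputable def clip (h s : ℝ) : ℝ := max (-h) (min s h)

/-- the part of `s` at heights between `2^{-(j+1)}` and `2^{-j}` -/
noncomputable def layer (j : ℕ) (s : ℝ) : ℝ := clip ((1 / 2) ^ j) s - clip ((1 / 2) ^ (j + 1)) s

theorem clip_of_abs_le {h s : ℝ} (hs : |s| ≤ h) : clip h s = s := by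
  obtain ⟨h1, h2⟩ := abs_le.1 hs
  unfold clip
  rw [min_eq_left h2, max_eq_right h1]

theorem clip_of_ge {h s : ℝ} (h0 : 0 ≤ h) (hs : h ≤ s) : clip h s = h := by
  unfold clip
  rw [min_eq_right hs, max_eq_right (by linarith)]

theorem clip_of_le {h s : ℝ} (h0 : 0 ≤ h) (hs : s ≤ -h) : clip h s = -h := by
  unfold clip
  rw [min_eq_left (by linarith), max_eq_left hs]

theorem abs_clip_le {h : ℝ} (h0 : 0 ≤ h) (s : ℝ) : |clip h s| ≤ h := by
  unfold clip
  rw [abs_le]
  exact ⟨le_max_left _ _, max_le (by linarith) (min_le_right _ _)⟩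

theorem abs_sub_clip_le {h : ℝ} (h0 : 0 ≤ h) (s : ℝ) : |s - clip h s| ≤ |s| := by
  rcases le_total |s| h with hs | hs
  · rw [clip_of_abs_le hs, sub_self, abs_zero]
    exact abs_nonneg _
  · rcases le_total 0 s with h1 | h1
    · rw [abs_of_nonneg h1] at hs ⊢
      rw [clip_of_ge h0 hs, abs_of_nonneg (by linarith)]
      linarith
    · rw [abs_of_nonpos h1] at hs ⊢
      rw [clip_of_le h0 (by linarith), abs_of_nonpos (by linarith)]
      linarith

theorem layer_eq_zero {j : ℕ} {s : ℝ} (hs : |s| ≤ (1 / 2) ^ (j + 1)) : layer j s = 0 := by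
  unfold layer
  have h1 : ((1 : ℝ) / 2) ^ (j + 1) ≤ (1 / 2) ^ j := by
    rw [pow_succ]
    have : (0 : ℝ) < (1 / 2) ^ j := by positivity
    linarith
  rw [clip_of_abs_le hs, clip_of_abs_le (hs.trans h1), sub_self]

theorem abs_layer_le' {h s : ℝ} (h0 : 0 < h) :
    |clip (2 * h) s - clip h s| ≤ min h (s ^ 2 / (4 * h)) := by
  have hsq : |s| ^ 2 = s ^ 2 := sq_abs s
  rcases le_total |s| h with hs | hs
  · rw [clip_of_abs_le hs, clip_of_abs_le (by linarith), sub_self, abs_zero]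
    exact le_min h0.le (by positivity)
  · have key : |clip (2 * h) s - clip h s| ≤ min (2 * h) |s| - h := by
      rcases le_total 0 s with h1 | h1
      · rw [abs_of_nonneg h1] at hs ⊢
        rw [clip_of_ge h0.le hs]
        rcases le_total s (2 * h) with h2 | h2
        · rw [clip_of_abs_le (by rw [abs_of_nonneg h1]; exact h2), min_eq_right h2,
            abs_of_nonneg (by linarith)]
        · rw [clip_of_ge (by linarith) h2, min_eq_left h2, abs_of_nonneg (by linarith)]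
      · rw [abs_of_nonpos h1] at hs ⊢
        rw [clip_of_le h0.le (by linarith)]
        rcases le_total (-s) (2 * h) with h2 | h2
        · rw [clip_of_abs_le (by rw [abs_of_nonpos h1]; exact h2), min_eq_right h2,
            abs_of_nonpos (by linarith)]
          linarith
        · rw [clip_of_le (by linarith) (by linarith), min_eq_left h2,
            abs_of_nonpos (by linarith)]
          linarith
    refine key.trans (le_min ?_ ?_)
    · have := min_le_left (2 * h) |s|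
      linarith
    · have h3 := min_le_right (2 * h) |s|
      rw [le_div_iff₀ (by linarith)]
      have h4 : (|s| - h) * (4 * h) ≤ s ^ 2 := by
        rw [← hsq]
        nlinarith [sq_nonneg (|s| - 2 * h)]
      have h5 : (min (2 * h) |s| - h) * (4 * h) ≤ (|s| - h) * (4 * h) :=
        mul_le_mul_of_nonneg_right (by linarith) (by linarith)
      linarith

theorem abs_layer_le (j : ℕ) (s : ℝ) : |layer j s| ≤ (1 / 2) ^ (j + 1) := by
  have h := abs_layer_le' (h := (1 / 2) ^ (j + 1)) (s := s) (by positivity)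
  have e : 2 * ((1 : ℝ) / 2) ^ (j + 1) = (1 / 2) ^ j := by rw [pow_succ]; ring
  rw [e] at h
  exact h.trans (min_le_left _ _)

theorem abs_layer_le_sq (j : ℕ) (s : ℝ) : |layer j s| ≤ 2 ^ j * s ^ 2 := by
  have h := abs_layer_le' (h := (1 / 2) ^ (j + 1)) (s := s) (by positivity)
  have e : 2 * ((1 : ℝ) / 2) ^ (j + 1) = (1 / 2) ^ j := by rw [pow_succ]; ring
  rw [e] at h
  refine (h.trans (min_le_right _ _)).trans ?_
  rw [div_le_iff₀ (by positivity)]
  have e2 : (2 : ℝ) ^ j * s ^ 2 * (4 * (1 / 2) ^ (j + 1)) = 2 * s ^ 2 * (2 ^ j * (1 / 2) ^ j) := by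
    rw [pow_succ]; ring
  rw [e2, ← mul_pow]
  norm_num
  nlinarith [sq_nonneg s]

theorem sum_layer (M : ℕ) (s : ℝ) :
    ∑ j ∈ Finset.range M, layer j s = clip 1 s - clip ((1 / 2) ^ M) s := by
  unfold layer
  rw [Finset.sum_range_sub' (fun j => clip ((1 / 2) ^ j) s)]
  simp

theorem sum_layer_of_le {M : ℕ} {s : ℝ} (hs : |s| ≤ 1) :
    ∑ j ∈ Finset.range M, layer j s = s - clip ((1 / 2) ^ M) s := by
  rw [sum_layer, clip_of_abs_le hs]

theorem abs_sub_sum_layer_le {M : ℕ} {s : ℝ} (hs : |s| ≤ 1) :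
    |s - ∑ j ∈ Finset.range M, layer j s| ≤ (1 / 2) ^ M := by
  rw [sum_layer_of_le hs]
  have : s - (s - clip ((1 / 2) ^ M) s) = clip ((1 / 2) ^ M) s := by ring
  rw [this]
  exact abs_clip_le (by positivity) s

theorem abs_sum_layer_le {M : ℕ} {s : ℝ} (hs : |s| ≤ 1) :
    |∑ j ∈ Finset.range M, layer j s| ≤ 1 := by
  rw [sum_layer_of_le hs]
  exact (abs_sub_clip_le (by positivity) s).trans hs

theorem layer_supp_card {m : ℕ} (f : Fin m → ℝ) (hf : ∑ p, f p ^ 2 ≤ 1) (j : ℕ) :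
    (Finset.univ.filter fun p => layer j (f p) ≠ 0).card < 2 ^ (2 * (j + 1)) := by
  classical
  by_contra hcon
  rw [not_lt] at hcon
  have h1 : ∀ p ∈ Finset.univ.filter (fun p => layer j (f p) ≠ 0),
      ((1 : ℝ) / 4) ^ (j + 1) < f p ^ 2 := by
    intro p hp
    have hp' := (Finset.mem_filter.1 hp).2
    have h2 : ((1 : ℝ) / 2) ^ (j + 1) < |f p| := by
      by_contra h3
      exact hp' (layer_eq_zero (not_lt.1 h3))
    have h4 : ((1 : ℝ) / 4) ^ (j + 1) = ((1 / 2) ^ (j + 1)) ^ 2 := by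
      rw [← pow_mul, mul_comm (j + 1) 2, pow_mul]; norm_num
    rw [h4, ← sq_abs (f p)]
    exact pow_lt_pow_left₀ h2 (by positivity) two_ne_zero
  have hne : (Finset.univ.filter fun p => layer j (f p) ≠ 0).Nonempty := by
    rw [← Finset.card_pos]
    exact lt_of_lt_of_le (by positivity) hcon
  have h2 : ∑ _p ∈ Finset.univ.filter (fun p => layer j (f p) ≠ 0), ((1 : ℝ) / 4) ^ (j + 1)
      < ∑ p ∈ Finset.univ.filter (fun p => layer j (f p) ≠ 0), f p ^ 2 :=
    Finset.sum_lt_sum_of_nonempty hne h1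
  have h3 : ∑ p ∈ Finset.univ.filter (fun p => layer j (f p) ≠ 0), f p ^ 2 ≤ 1 :=
    (Finset.sum_le_sum_of_subset_of_nonneg (Finset.filter_subset _ _)
      fun p _ _ => sq_nonneg _).trans hf
  rw [Finset.sum_const, nsmul_eq_mul] at h2
  have h4 : (1 : ℝ) ≤ ((Finset.univ.filter fun p => layer j (f p) ≠ 0).card : ℝ)
      * (1 / 4) ^ (j + 1) := by
    have h5 : ((2 ^ (2 * (j + 1)) : ℕ) : ℝ)
        ≤ ((Finset.univ.filter fun p => layer j (f p) ≠ 0).card : ℝ) := by
      exact_mod_cast hcon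
    have h6 : (1 : ℝ) = ((2 ^ (2 * (j + 1)) : ℕ) : ℝ) * (1 / 4) ^ (j + 1) := by
      push_cast
      rw [pow_mul, ← mul_pow]
      norm_num
    calc (1 : ℝ) = ((2 ^ (2 * (j + 1)) : ℕ) : ℝ) * (1 / 4) ^ (j + 1) := h6
      _ ≤ _ := mul_le_mul_of_nonneg_right h5 (by positivity)
  linarith

theorem layer_l1 {m : ℕ} (f : Fin m → ℝ) (hf : ∑ p, f p ^ 2 ≤ 1) (j : ℕ) :
    ∑ p, |layer j (f p)| ≤ 2 ^ j := by
  calc ∑ p, |layer j (f p)| ≤ ∑ p, 2 ^ j * f p ^ 2 :=
        Finset.sum_le_sum fun p _ => abs_layer_le_sq j (f p)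
    _ = 2 ^ j * ∑ p, f p ^ 2 := (Finset.mul_sum _ _ _).symm
    _ ≤ 2 ^ j * 1 := mul_le_mul_of_nonneg_left hf (by positivity)
    _ = 2 ^ j := mul_one _

theorem abs_le_one_of_sq {m : ℕ} (f : Fin m → ℝ) (hf : ∑ p, f p ^ 2 ≤ 1) (p : Fin m) :
    |f p| ≤ 1 := by
  have h : f p ^ 2 ≤ 1 :=
    (Finset.single_le_sum (f := fun p => f p ^ 2) (fun p _ => sq_nonneg _)
      (Finset.mem_univ p)).trans hf
  exact abs_le_one_iff_mul_self_le_one.2 (by rw [← sq]; exact h)

theorem abs_prod_sub_prod_le {ι : Type*} (s : Finset ι) (a b : ι → ℝ) (e : ℝ) (he : 0 ≤ e)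
    (ha : ∀ k ∈ s, |a k| ≤ 1) (hb : ∀ k ∈ s, |b k| ≤ 1) (hab : ∀ k ∈ s, |a k - b k| ≤ e) :
    |∏ k ∈ s, a k - ∏ k ∈ s, b k| ≤ s.card * e := by
  classical
  induction s using Finset.induction_on with
  | empty => simp
  | insert k s hk ih =>
    rw [Finset.prod_insert hk, Finset.prod_insert hk, Finset.card_insert_of_notMem hk]
    have h1 := ih (fun i hi => ha i (Finset.mem_insert_of_mem hi))
      (fun i hi => hb i (Finset.mem_insert_of_mem hi))
      (fun i hi => hab i (Finset.mem_insert_of_mem hi))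
    have hbp : |∏ i ∈ s, b i| ≤ 1 := by
      rw [Finset.abs_prod]
      exact Finset.prod_le_one (fun i _ => abs_nonneg _)
        (fun i hi => hb i (Finset.mem_insert_of_mem hi))
    have e1 : a k * ∏ i ∈ s, a i - b k * ∏ i ∈ s, b i
        = a k * (∏ i ∈ s, a i - ∏ i ∈ s, b i) + (a k - b k) * ∏ i ∈ s, b i := by ring
    rw [e1]
    refine (abs_add_le _ _).trans ?_
    rw [abs_mul, abs_mul]
    have h2 : |a k| * |∏ i ∈ s, a i - ∏ i ∈ s, b i| ≤ 1 * (s.card * e) :=
      mul_le_mul (ha k (Finset.mem_insert_self _ _)) h1 (abs_nonneg _) zero_le_one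
    have h3 : |a k - b k| * |∏ i ∈ s, b i| ≤ e * 1 :=
      mul_le_mul (hab k (Finset.mem_insert_self _ _)) hbp (abs_nonneg _) he
    push_cast
    linarith

end Pool.Agent.Lib.MP_183cce_co
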