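import Pool.Agent.Lib.MP_183cce_co.Core

/-!
# The bound
-/

set_option autoImplicit false

namespace Pool.Agent.Lib.MP_183cce_co

theorem high_bound (d : ℕ) (δ : ℝ) (hδ : 0 < δ) :
    ∃ A : ℝ, 0 ≤ A ∧ ∀ (K : ℝ), 0 < K → ∀ M t : ℕ,
      (∑ j ∈ (lvl (d + 1) M).filter (fun j => t ≤ wt j),
              ∏ k, ((2 * (j k : ℝ) + 3) * √(K * (2 : ℝ) ^ (-δ * (j k : ℝ))))) ^ 2
        ≤ A * ((t : ℝ) + 1) ^ (4 * d + 2) * (K ^ (d + 1) * ((2 : ℝ) ^ (-δ)) ^ t) := by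
  have hτ0 : (0 : ℝ) < (2 : ℝ) ^ (-δ) := Real.rpow_pos_of_pos two_pos _
  have hτ1 : (2 : ℝ) ^ (-δ) < 1 := Real.rpow_lt_one_of_one_lt_of_neg one_lt_two (by linarith)
  have hσ0 : 0 < √((2 : ℝ) ^ (-δ)) := Real.sqrt_pos.2 hτ0
  have hσ1 : √((2 : ℝ) ^ (-δ)) < 1 := by
    rw [Real.sqrt_lt' one_pos]; simpa using hτ1
  obtain ⟨A, hA0, hA⟩ := high_sum_le d (√((2 : ℝ) ^ (-δ))) hσ0 hσ1
  refine ⟨(3 ^ (d + 1) * A) ^ 2, by positivity, fun K hK M t => ?_⟩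
  have hσ2 : √((2 : ℝ) ^ (-δ)) ^ 2 = (2 : ℝ) ^ (-δ) := Real.sq_sqrt hτ0.le
  have hsq : ∀ j : ℕ, √(K * (2 : ℝ) ^ (-δ * (j : ℝ))) = √K * √((2 : ℝ) ^ (-δ)) ^ j := by
    intro j
    rw [Real.rpow_mul_natCast two_pos.le, Real.sqrt_mul hK.le]
    congr 1
    rw [Real.sqrt_eq_iff_mul_self_eq (by positivity) (by positivity), ← mul_pow, ← sq, hσ2]
  have h1 : ∑ j ∈ (lvl (d + 1) M).filter (fun j => t ≤ wt j),
      ∏ k, ((2 * (j k : ℝ) + 3) * √(K * (2 : ℝ) ^ (-δ * (j k : ℝ))))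
      ≤ (3 ^ (d + 1) * √K ^ (d + 1)) * (A * ((t : ℝ) + 1) ^ (2 * d + 1)
          * √((2 : ℝ) ^ (-δ)) ^ t) := by
    calc ∑ j ∈ (lvl (d + 1) M).filter (fun j => t ≤ wt j),
          ∏ k, ((2 * (j k : ℝ) + 3) * √(K * (2 : ℝ) ^ (-δ * (j k : ℝ))))
        ≤ ∑ j ∈ (lvl (d + 1) M).filter (fun j => t ≤ wt j),
            (3 ^ (d + 1) * √K ^ (d + 1)) *
              (((wt j : ℝ) + 1) ^ (d + 1) * √((2 : ℝ) ^ (-δ)) ^ wt j) := by
          refine Finset.sum_le_sum fun j _ => ?_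
          have h2 : ∀ k, (j k : ℝ) ≤ wt j := fun k => by
            have : j k ≤ wt j :=
              Finset.single_le_sum (f := fun k => j k) (fun _ _ => Nat.zero_le _)
                (Finset.mem_univ _)
            exact_mod_cast this
          have e1 : (3 ^ (d + 1) * √K ^ (d + 1)) *
              (((wt j : ℝ) + 1) ^ (d + 1) * √((2 : ℝ) ^ (-δ)) ^ wt j)
              = ∏ k : Fin (d + 1), ((3 * ((wt j : ℝ) + 1)) * (√K * √((2 : ℝ) ^ (-δ)) ^ j k)) := by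
            rw [Finset.prod_mul_distrib, Finset.prod_mul_distrib, Finset.prod_mul_distrib,
              Finset.prod_pow_eq_pow_sum, Finset.prod_const, Finset.prod_const,
              Finset.prod_const, Finset.card_univ, Fintype.card_fin]
            have e2 : ∑ k, j k = wt j := rfl
            rw [e2]
            ring
          rw [e1]
          refine Finset.prod_le_prod (fun k _ => by positivity) fun k _ => ?_
          rw [hsq]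
          refine mul_le_mul_of_nonneg_right ?_ (by positivity)
          have := h2 k
          linarith
      _ = (3 ^ (d + 1) * √K ^ (d + 1)) * ∑ j ∈ (lvl (d + 1) M).filter (fun j => t ≤ wt j),
            (((wt j : ℝ) + 1) ^ (d + 1) * √((2 : ℝ) ^ (-δ)) ^ wt j) :=
          (Finset.mul_sum _ _ _).symm
      _ ≤ _ := mul_le_mul_of_nonneg_left (hA M t) (by positivity)
  have h0 : 0 ≤ ∑ j ∈ (lvl (d + 1) M).filter (fun j => t ≤ wt j),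
      ∏ k, ((2 * (j k : ℝ) + 3) * √(K * (2 : ℝ) ^ (-δ * (j k : ℝ)))) :=
    Finset.sum_nonneg fun j _ => Finset.prod_nonneg fun k _ => by positivity
  refine (pow_le_pow_left₀ h0 h1 2).trans (le_of_eq ?_)
  have hK2 : √K ^ 2 = K := Real.sq_sqrt hK.le
  calc ((3 ^ (d + 1) * √K ^ (d + 1)) * (A * ((t : ℝ) + 1) ^ (2 * d + 1)
        * √((2 : ℝ) ^ (-δ)) ^ t)) ^ 2
      = (3 ^ (d + 1) * A) ^ 2 * (((t : ℝ) + 1) ^ (2 * d + 1)) ^ 2
          * ((√K ^ 2) ^ (d + 1) * (√((2 : ℝ) ^ (-δ)) ^ 2) ^ t) := by ring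
    _ = _ := by
        rw [hK2, hσ2, ← pow_mul]
        congr 3
        ring

/-- the choice of the cut-off -/
theorem choose_t (d : ℕ) (δ : ℝ) (hδ : 0 < δ) (K : ℝ) (hK : 1 ≤ K) :
    ∃ t : ℕ, (2 : ℝ) ^ t ≤ K ^ (((d : ℝ) + 1) / (1 + δ)) ∧
      K ^ (d + 1) * ((2 : ℝ) ^ (-δ)) ^ t ≤ 2 ^ δ * K ^ (((d : ℝ) + 1) / (1 + δ)) ∧
      (t : ℝ) + 1 ≤ (2 * d + 3) * (1 + Real.log K) := by
  have hK0 : 0 < K := by linarith
  have hexp : 0 ≤ ((d : ℝ) + 1) / (1 + δ) := by positivity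
  have hκ1 : 1 ≤ K ^ (((d : ℝ) + 1) / (1 + δ)) := Real.one_le_rpow hK hexp
  obtain ⟨t, ht1, ht2⟩ := exists_nat_pow_near hκ1 (one_lt_two (α := ℝ))
  have hκ0 : 0 < K ^ (((d : ℝ) + 1) / (1 + δ)) := by linarith
  have hlogK : 0 ≤ Real.log K := Real.log_nonneg hK
  refine ⟨t, ht1, ?_, ?_⟩
  · have hτ0 : (0 : ℝ) < (2 : ℝ) ^ (-δ) := Real.rpow_pos_of_pos two_pos _
    have h1 : ((2 : ℝ) ^ (-δ)) ^ (t + 1) ≤ (K ^ (((d : ℝ) + 1) / (1 + δ))) ^ (-δ) := by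
      have e1 : ((2 : ℝ) ^ (-δ)) ^ (t + 1) = ((2 : ℝ) ^ (t + 1)) ^ (-δ) := by
        rw [← Real.rpow_natCast ((2 : ℝ) ^ (-δ)), ← Real.rpow_mul two_pos.le,
          ← Real.rpow_natCast (2 : ℝ), ← Real.rpow_mul two_pos.le, mul_comm]
      rw [e1]
      exact Real.rpow_le_rpow_of_nonpos hκ0 ht2.le (by linarith)
    have h2 : K ^ (d + 1) = K ^ (((d : ℝ) + 1) / (1 + δ))
        * (K ^ (((d : ℝ) + 1) / (1 + δ))) ^ δ := by
      rw [← Real.rpow_mul hK0.le, ← Real.rpow_add hK0, ← Real.rpow_natCast]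
      congr 1
      push_cast
      field_simp
    have h3 : (K ^ (((d : ℝ) + 1) / (1 + δ))) ^ δ * (K ^ (((d : ℝ) + 1) / (1 + δ))) ^ (-δ)
        = 1 := by
      rw [← Real.rpow_add hκ0]
      simp
    have h4 : (2 : ℝ) ^ δ * (2 : ℝ) ^ (-δ) = 1 := by
      rw [← Real.rpow_add two_pos]
      simp
    have h5 : ((2 : ℝ) ^ (-δ)) ^ t = 2 ^ δ * ((2 : ℝ) ^ (-δ)) ^ (t + 1) := by
      rw [pow_succ]
      calc ((2 : ℝ) ^ (-δ)) ^ t = ((2 : ℝ) ^ (-δ)) ^ t * (2 ^ δ * (2 : ℝ) ^ (-δ)) := by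
            rw [h4, mul_one]
        _ = _ := by ring
    have hκd : 0 ≤ K ^ (((d : ℝ) + 1) / (1 + δ)) * (K ^ (((d : ℝ) + 1) / (1 + δ))) ^ δ := by
      positivity
    calc K ^ (d + 1) * ((2 : ℝ) ^ (-δ)) ^ t
        = 2 ^ δ * ((K ^ (((d : ℝ) + 1) / (1 + δ)) * (K ^ (((d : ℝ) + 1) / (1 + δ))) ^ δ)
            * ((2 : ℝ) ^ (-δ)) ^ (t + 1)) := by rw [h5, h2]; ring
      _ ≤ 2 ^ δ * ((K ^ (((d : ℝ) + 1) / (1 + δ)) * (K ^ (((d : ℝ) + 1) / (1 + δ))) ^ δ)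
            * (K ^ (((d : ℝ) + 1) / (1 + δ))) ^ (-δ)) := by
          refine mul_le_mul_of_nonneg_left ?_ (by positivity)
          exact mul_le_mul_of_nonneg_left h1 hκd
      _ = 2 ^ δ * (K ^ (((d : ℝ) + 1) / (1 + δ))
            * ((K ^ (((d : ℝ) + 1) / (1 + δ))) ^ δ * (K ^ (((d : ℝ) + 1) / (1 + δ))) ^ (-δ))) := by
          ring
      _ = _ := by rw [h3, mul_one]
  · have h1 : (t : ℝ) * Real.log 2 ≤ ((d : ℝ) + 1) / (1 + δ) * Real.log K := by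
      have h2 := Real.log_le_log (by positivity) ht1
      rw [Real.log_pow, Real.log_rpow hK0] at h2
      exact h2
    have h3 : ((d : ℝ) + 1) / (1 + δ) * Real.log K ≤ ((d : ℝ) + 1) * Real.log K := by
      refine mul_le_mul_of_nonneg_right ?_ hlogK
      rw [div_le_iff₀ (by linarith)]
      nlinarith [mul_nonneg (by positivity : (0 : ℝ) ≤ (d : ℝ) + 1) hδ.le]
    have h4 : (1 : ℝ) / 2 < Real.log 2 := by
      have := Real.log_two_gt_d9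
      linarith
    have h5 : (t : ℝ) * (1 / 2) ≤ (t : ℝ) * Real.log 2 :=
      mul_le_mul_of_nonneg_left h4.le (Nat.cast_nonneg _)
    have hd : (0 : ℝ) ≤ d := Nat.cast_nonneg _
    nlinarith [mul_nonneg hd hlogK]

theorem main_bound (d : ℕ) (δ : ℝ) (hδ : 0 < δ) :
    ∃ C : ℝ, 0 ≤ C ∧ ∀ (m : Fin (d + 1) → ℕ) (r : Fin (d + 1) → ℕ → ℕ)
      (π : ∀ k, ℕ → ℕ → Equiv.Perm (Fin (m k))) (K : ℝ), 1 ≤ K →
      ∀ (n R : ℕ) (lam : Fin n → Fin R → ℝ) (f : Fin n → Fin R → ∀ k, Fin (m k) → ℝ),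
      (∀ i ρ k, Tame (m k) (r k) (π k) K δ (f i ρ k)) → (∀ i, ∑ ρ, |lam i ρ| ≤ 1) →
      ∀ x : Fin n → ℝ, ∃ a : Fin n → ℤ, (∀ i, |x i - a i| ≤ 1) ∧ ∀ p : (∀ k, Fin (m k)),
        |∑ i, (x i - a i) * ∑ ρ, lam i ρ * ∏ k, f i ρ k (p k)|
          ≤ C * K ^ (((d : ℝ) + 1) / (1 + δ)) * (1 + Real.log K) ^ (4 * d + 2) := by
  obtain ⟨A, hA0, hA⟩ := high_bound d δ hδ
  refine ⟨(2 * d + 3) ^ (4 * d + 2) * (3 + 2 * A * 2 ^ δ), by positivity, ?_⟩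
  intro m r π K hK n R lam f hf hlam x
  have hK0 : 0 < K := by linarith
  have hlogK : 0 ≤ Real.log K := Real.log_nonneg hK
  have hexp : 0 ≤ ((d : ℝ) + 1) / (1 + δ) := by positivity
  have hκ1 : 1 ≤ K ^ (((d : ℝ) + 1) / (1 + δ)) := Real.one_le_rpow hK hexp
  by_cases hnR : n = 0 ∨ R = 0
  · refine ⟨fun i => ⌊x i⌋, fun i => ?_, fun p => ?_⟩
    · rw [abs_of_nonneg (by linarith [Int.floor_le (x i)])]
      linarith [Int.lt_floor_add_one (x i)]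
    · have e0 : ∑ i, (x i - (⌊x i⌋ : ℝ)) * ∑ ρ, lam i ρ * ∏ k, f i ρ k (p k) = 0 := by
        refine Finset.sum_eq_zero fun i _ => ?_
        rcases hnR with h | h
        · subst h; exact i.elim0
        · subst h; simp
      rw [e0, abs_zero]
      positivity
  · push Not at hnR
    have hr : ∀ k j, 0 < r k j := fun k j => by
      obtain ⟨s, hs, -⟩ := (hf ⟨0, Nat.pos_of_ne_zero hnR.1⟩ ⟨0, Nat.pos_of_ne_zero hnR.2⟩ k).var_le j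
      exact lt_of_le_of_lt (Nat.zero_le s) hs
    obtain ⟨t, ht1, ht2, ht3⟩ := choose_t d δ hδ K hK
    have hnd : (0 : ℝ) < (n : ℝ) * ((d : ℝ) + 1) := by
      have : (0 : ℝ) < n := by exact_mod_cast Nat.pos_of_ne_zero hnR.1
      positivity
    obtain ⟨M, hM⟩ := exists_pow_lt_of_lt_one (x := (1 : ℝ) / ((n : ℝ) * ((d : ℝ) + 1)))
      (y := 1 / 2) (by positivity) (by norm_num)
    have hM' : (n : ℝ) * (((d : ℝ) + 1) * (1 / 2) ^ M) ≤ 1 := by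
      rw [lt_div_iff₀ hnd] at hM
      nlinarith
    obtain ⟨a, ha1, ha2⟩ := core hK0 hf hr hlam t M x
    refine ⟨a, ha1, fun p => (ha2 p).trans ?_⟩
    have hS := hA K hK0 M t
    have ht0 : (0 : ℝ) ≤ t := Nat.cast_nonneg t
    have hT1 : (1 : ℝ) ≤ ((t : ℝ) + 1) ^ (4 * d + 2) := one_le_pow₀ (by linarith)
    have hTd : ((t : ℝ) + 1) ^ d ≤ ((t : ℝ) + 1) ^ (4 * d + 2) :=
      pow_le_pow_right₀ (by linarith) (by omega)
    have hTT : ((t : ℝ) + 1) ^ (4 * d + 2)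
        ≤ (2 * d + 3) ^ (4 * d + 2) * (1 + Real.log K) ^ (4 * d + 2) := by
      rw [← mul_pow]
      exact pow_le_pow_left₀ (by positivity) ht3 _
    have hκ0 : 0 ≤ K ^ (((d : ℝ) + 1) / (1 + δ)) := by linarith
    have b1 : 2 * (((t : ℝ) + 1) ^ d * 2 ^ t)
        ≤ 2 * (((t : ℝ) + 1) ^ (4 * d + 2) * K ^ (((d : ℝ) + 1) / (1 + δ))) := by
      refine mul_le_mul_of_nonneg_left ?_ (by norm_num)
      exact mul_le_mul hTd ht1 (by positivity) (by positivity)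
    have b2 : 2 * (∑ j ∈ (lvl (d + 1) M).filter (fun j => t ≤ wt j),
              ∏ k, ((2 * (j k : ℝ) + 3) * √(K * (2 : ℝ) ^ (-δ * (j k : ℝ))))) ^ 2
        ≤ 2 * (A * ((t : ℝ) + 1) ^ (4 * d + 2)
            * (2 ^ δ * K ^ (((d : ℝ) + 1) / (1 + δ)))) := by
      refine mul_le_mul_of_nonneg_left (hS.trans ?_) (by norm_num)
      exact mul_le_mul_of_nonneg_left ht2 (by positivity)
    have b3 : (1 : ℝ) ≤ ((t : ℝ) + 1) ^ (4 * d + 2) * K ^ (((d : ℝ) + 1) / (1 + δ)) := by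
      nlinarith
    calc 2 * (((t : ℝ) + 1) ^ d * 2 ^ t)
          + 2 * (∑ j ∈ (lvl (d + 1) M).filter (fun j => t ≤ wt j),
              ∏ k, ((2 * (j k : ℝ) + 3) * √(K * (2 : ℝ) ^ (-δ * (j k : ℝ))))) ^ 2
          + n * ((d + 1) * (1 / 2) ^ M)
        ≤ 2 * (((t : ℝ) + 1) ^ (4 * d + 2) * K ^ (((d : ℝ) + 1) / (1 + δ)))
          + 2 * (A * ((t : ℝ) + 1) ^ (4 * d + 2)
            * (2 ^ δ * K ^ (((d : ℝ) + 1) / (1 + δ))))
          + ((t : ℝ) + 1) ^ (4 * d + 2) * K ^ (((d : ℝ) + 1) / (1 + δ)) :=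
          add_le_add (add_le_add b1 b2) (hM'.trans b3)
      _ = ((t : ℝ) + 1) ^ (4 * d + 2) * (K ^ (((d : ℝ) + 1) / (1 + δ))
            * (3 + 2 * A * 2 ^ δ)) := by ring
      _ ≤ ((2 * d + 3) ^ (4 * d + 2) * (1 + Real.log K) ^ (4 * d + 2))
            * (K ^ (((d : ℝ) + 1) / (1 + δ)) * (3 + 2 * A * 2 ^ δ)) :=
          mul_le_mul_of_nonneg_right hTT (by positivity)
      _ = _ := by ring

end Pool.Agent.Lib.MP_183cce_co
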