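import Pool.Agent.Lib.MP_183cce_co.Layer

/-!
# Sums over multi-indices
-/

set_option autoImplicit false

namespace Pool.Agent.Lib.MP_183cce_co

/-- the multi-indices with entries less than `M` -/
def lvl (d M : ℕ) : Finset (Fin d → ℕ) := Fintype.piFinset fun _ => Finset.range M

/-- the weight of a multi-index -/
def wt {d : ℕ} (j : Fin d → ℕ) : ℕ := ∑ k, j k

theorem card_fiber_le (d M s : ℕ) :
    ((lvl (d + 1) M).filter fun j => wt j = s).card ≤ (s + 1) ^ d := by
  classical
  have h : (Fintype.piFinset fun _ : Fin d => Finset.range (s + 1)).card = (s + 1) ^ d := by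
    rw [Fintype.card_piFinset]
    simp
  rw [← h]
  refine Finset.card_le_card_of_injOn (fun j k => j k.castSucc) ?_ ?_
  · intro j hj
    have hj' := (Finset.mem_filter.1 (Finset.mem_coe.1 hj)).2
    refine Finset.mem_coe.2 (Fintype.mem_piFinset.2 fun k => Finset.mem_range.2 ?_)
    have h1 : j k.castSucc ≤ wt j :=
      Finset.single_le_sum (f := fun k => j k) (fun _ _ => Nat.zero_le _) (Finset.mem_univ _)
    show j k.castSucc < s + 1
    omega
  · intro j hj j' hj' heq
    have h1 := (Finset.mem_filter.1 (Finset.mem_coe.1 hj)).2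
    have h2 := (Finset.mem_filter.1 (Finset.mem_coe.1 hj')).2
    have h3 : ∀ k : Fin d, j k.castSucc = j' k.castSucc := fun k => congrFun heq k
    unfold wt at h1 h2
    rw [Fin.sum_univ_castSucc] at h1 h2
    have h4 : ∑ k : Fin d, j k.castSucc = ∑ k : Fin d, j' k.castSucc :=
      Finset.sum_congr rfl fun k _ => h3 k
    have h5 : j (Fin.last d) = j' (Fin.last d) := by omega
    funext k
    refine Fin.lastCases h5 (fun k => h3 k) k

theorem sum_lvl_le (d M : ℕ) (P : ℕ → Prop) [DecidablePred P] (G : ℕ → ℝ) (hG : ∀ s, 0 ≤ G s) :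
    ∑ j ∈ (lvl (d + 1) M).filter (fun j => P (wt j)), G (wt j)
      ≤ ∑ s ∈ (Finset.range ((d + 1) * M + 1)).filter P, ((s : ℝ) + 1) ^ d * G s := by
  classical
  have hmaps : ∀ j ∈ (lvl (d + 1) M).filter (fun j => P (wt j)),
      wt j ∈ (Finset.range ((d + 1) * M + 1)).filter P := by
    intro j hj
    obtain ⟨h1, h2⟩ := Finset.mem_filter.1 hj
    refine Finset.mem_filter.2 ⟨Finset.mem_range.2 ?_, h2⟩
    have h3 : wt j ≤ ∑ _k : Fin (d + 1), M := by
      unfold wt
      refine Finset.sum_le_sum fun k _ => ?_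
      have := Finset.mem_range.1 (Fintype.mem_piFinset.1 h1 k)
      exact this.le
    rw [Finset.sum_const, Finset.card_univ, Fintype.card_fin, smul_eq_mul] at h3
    omega
  rw [← Finset.sum_fiberwise_of_maps_to hmaps]
  refine Finset.sum_le_sum fun s _ => ?_
  calc ∑ j ∈ ((lvl (d + 1) M).filter fun j => P (wt j)).filter (fun j => wt j = s), G (wt j)
      = ∑ _j ∈ ((lvl (d + 1) M).filter fun j => P (wt j)).filter (fun j => wt j = s), G s :=
        Finset.sum_congr rfl fun j hj => by rw [(Finset.mem_filter.1 hj).2]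
    _ = ((((lvl (d + 1) M).filter fun j => P (wt j)).filter fun j => wt j = s).card : ℝ)
          * G s := by rw [Finset.sum_const, nsmul_eq_mul]
    _ ≤ ((s : ℝ) + 1) ^ d * G s := by
        refine mul_le_mul_of_nonneg_right ?_ (hG s)
        have h1 : (((lvl (d + 1) M).filter fun j => P (wt j)).filter fun j => wt j = s).card
            ≤ (s + 1) ^ d := by
          refine (Finset.card_le_card ?_).trans (card_fiber_le d M s)
          intro j hj
          obtain ⟨h1, h2⟩ := Finset.mem_filter.1 hj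
          exact Finset.mem_filter.2 ⟨(Finset.mem_filter.1 h1).1, h2⟩
        calc ((((lvl (d + 1) M).filter fun j => P (wt j)).filter fun j => wt j = s).card : ℝ)
            ≤ (((s + 1) ^ d : ℕ) : ℝ) := by exact_mod_cast h1
          _ = ((s : ℝ) + 1) ^ d := by push_cast; rfl

/-- the sum of the ℓ₁ norms of the low layers -/
theorem low_sum_le (d M t : ℕ) :
    ∑ j ∈ (lvl (d + 1) M).filter (fun j => wt j < t), (2 : ℝ) ^ wt j
      ≤ ((t : ℝ) + 1) ^ d * 2 ^ t := by
  refine (sum_lvl_le d M (fun s => s < t) (fun s => (2 : ℝ) ^ s) fun s => by positivity).trans ?_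
  calc ∑ s ∈ (Finset.range ((d + 1) * M + 1)).filter (fun s => s < t), ((s : ℝ) + 1) ^ d * 2 ^ s
      ≤ ∑ s ∈ Finset.range t, ((t : ℝ) + 1) ^ d * 2 ^ s := by
        refine (Finset.sum_le_sum_of_subset_of_nonneg (t := Finset.range t) ?_
          fun s _ _ => by positivity).trans (Finset.sum_le_sum fun s hs => ?_)
        · intro s hs
          exact Finset.mem_range.2 (Finset.mem_filter.1 hs).2
        · have h1 : (s : ℝ) ≤ t := by exact_mod_cast (Finset.mem_range.1 hs).le
          exact mul_le_mul_of_nonneg_right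
            (pow_le_pow_left₀ (by positivity) (by linarith) d) (by positivity)
    _ = ((t : ℝ) + 1) ^ d * ∑ s ∈ Finset.range t, (2 : ℝ) ^ s := (Finset.mul_sum _ _ _).symm
    _ ≤ ((t : ℝ) + 1) ^ d * 2 ^ t := by
        refine mul_le_mul_of_nonneg_left ?_ (by positivity)
        rw [geom_sum_eq (by norm_num)]
        have : (0 : ℝ) < 2 ^ t := by positivity
        norm_num

/-- the sum over the high layers -/
theorem high_sum_le (d : ℕ) (σ : ℝ) (h0 : 0 < σ) (h1 : σ < 1) :
    ∃ A : ℝ, 0 ≤ A ∧ ∀ M t : ℕ,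
      ∑ j ∈ (lvl (d + 1) M).filter (fun j => t ≤ wt j), ((wt j : ℝ) + 1) ^ (d + 1) * σ ^ wt j
        ≤ A * ((t : ℝ) + 1) ^ (2 * d + 1) * σ ^ t := by
  have hs0 : Summable fun k : ℕ => ((k : ℝ) ^ (2 * d + 1) * σ ^ k) :=
    summable_pow_mul_geometric_of_norm_lt_one (2 * d + 1)
      (by rw [Real.norm_eq_abs, abs_of_pos h0]; exact h1)
  have hs : Summable fun k : ℕ => (((k : ℝ) + 1) ^ (2 * d + 1) * σ ^ k) := by
    have h2 := (summable_nat_add_iff 1).2 hs0
    have h3 := h2.mul_left σ⁻¹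
    refine h3.congr fun k => ?_
    push_cast
    rw [pow_succ σ k]
    field_simp
  refine ⟨∑' k : ℕ, (((k : ℝ) + 1) ^ (2 * d + 1) * σ ^ k),
    tsum_nonneg fun k => by positivity, fun M t => ?_⟩
  refine (sum_lvl_le d M (fun s => t ≤ s) (fun s => ((s : ℝ) + 1) ^ (d + 1) * σ ^ s)
    fun s => by positivity).trans ?_
  have e1 : (Finset.range ((d + 1) * M + 1)).filter (fun s => t ≤ s)
      = Finset.Ico t ((d + 1) * M + 1) := by
    ext s
    simp only [Finset.mem_filter, Finset.mem_range, Finset.mem_Ico]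
    tauto
  rw [e1, Finset.sum_Ico_eq_sum_range]
  calc ∑ k ∈ Finset.range ((d + 1) * M + 1 - t),
        (((t + k : ℕ) : ℝ) + 1) ^ d * ((((t + k : ℕ) : ℝ) + 1) ^ (d + 1) * σ ^ (t + k))
      ≤ ∑ k ∈ Finset.range ((d + 1) * M + 1 - t),
          (((t : ℝ) + 1) ^ (2 * d + 1) * σ ^ t) * (((k : ℝ) + 1) ^ (2 * d + 1) * σ ^ k) := by
        refine Finset.sum_le_sum fun k _ => ?_
        have h2 : (((t + k : ℕ) : ℝ) + 1) ≤ ((t : ℝ) + 1) * ((k : ℝ) + 1) := by
          push_cast
          nlinarith [mul_nonneg (Nat.cast_nonneg (α := ℝ) t) (Nat.cast_nonneg (α := ℝ) k)]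
        have h3 : (((t + k : ℕ) : ℝ) + 1) ^ (2 * d + 1)
            ≤ ((t : ℝ) + 1) ^ (2 * d + 1) * ((k : ℝ) + 1) ^ (2 * d + 1) := by
          rw [← mul_pow]
          exact pow_le_pow_left₀ (by positivity) h2 _
        have h4 : (0 : ℝ) ≤ σ ^ t * σ ^ k := by positivity
        calc (((t + k : ℕ) : ℝ) + 1) ^ d * ((((t + k : ℕ) : ℝ) + 1) ^ (d + 1) * σ ^ (t + k))
            = (((t + k : ℕ) : ℝ) + 1) ^ (2 * d + 1) * (σ ^ t * σ ^ k) := by
              rw [pow_add σ t k]
              ring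
          _ ≤ (((t : ℝ) + 1) ^ (2 * d + 1) * ((k : ℝ) + 1) ^ (2 * d + 1)) * (σ ^ t * σ ^ k) :=
              mul_le_mul_of_nonneg_right h3 h4
          _ = _ := by ring
    _ = (((t : ℝ) + 1) ^ (2 * d + 1) * σ ^ t) *
          ∑ k ∈ Finset.range ((d + 1) * M + 1 - t), (((k : ℝ) + 1) ^ (2 * d + 1) * σ ^ k) :=
        (Finset.mul_sum _ _ _).symm
    _ ≤ (((t : ℝ) + 1) ^ (2 * d + 1) * σ ^ t) *
          ∑' k : ℕ, (((k : ℝ) + 1) ^ (2 * d + 1) * σ ^ k) := by
        refine mul_le_mul_of_nonneg_left ?_ (by positivity)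
        exact hs.sum_le_tsum _ fun k _ => by positivity
    _ = _ := by ring

end Pool.Agent.Lib.MP_183cce_co
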