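import Pool.Agent.Lib.MP_183cce_co.Coding

/-!
# Dyadic codes for functions of bounded variation on a path
-/

set_option autoImplicit false

namespace Pool.Agent.Lib.MP_183cce_co

/-- the sum of the variations over disjoint cells -/
theorem cell_sum (w : ℕ → ℝ) (s : ℕ) (f : ℕ → ℕ) (h1 : ∀ i, i * s ≤ f i)
    (h2 : ∀ i, f i ≤ (i + 1) * s) (N : ℕ) :
    ∑ i ∈ Finset.range N, |w (f i) - w (i * s)|
      ≤ ∑ p ∈ Finset.range (N * s), |w (p + 1) - w p| := by
  induction N with
  | zero => simp
  | succ N ih =>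
    rw [Finset.sum_range_succ]
    have e1 : ∑ p ∈ Finset.range ((N + 1) * s), |w (p + 1) - w p|
        = (∑ p ∈ Finset.range (N * s), |w (p + 1) - w p|)
          + ∑ p ∈ Finset.Ico (N * s) ((N + 1) * s), |w (p + 1) - w p| := by
      rw [Finset.sum_range_add_sum_Ico _ (Nat.mul_le_mul_right s (Nat.le_succ N))]
    rw [e1]
    refine add_le_add ih ?_
    have e2 : |w (f N) - w (N * s)|
        ≤ ∑ p ∈ Finset.Ico (N * s) (f N), |w (p + 1) - w p| := by
      have h := dist_le_Ico_sum_dist w (h1 N)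
      rw [Real.dist_eq, abs_sub_comm] at h
      refine h.trans_eq (Finset.sum_congr rfl fun p _ => ?_)
      rw [Real.dist_eq, abs_sub_comm]
    refine e2.trans (Finset.sum_le_sum_of_subset_of_nonneg ?_ fun _ _ _ => abs_nonneg _)
    exact Finset.Ico_subset_Ico le_rfl (h2 N)

/-- the functionals of the dyadic code -/
noncomputable def bco (L l i : ℕ) (w : ℕ → ℝ) : ℝ :=
  if l < L then w ((2 * i + 1) * 2 ^ l) - w (2 * i * 2 ^ l) else w (i * 2 ^ L)

/-- the coefficients of the dyadic code -/
noncomputable def eps (L l p : ℕ) : ℝ :=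
  if l < L then (if (p / 2 ^ l) % 2 = 1 then 1 else 0) else 1

/-- the positions of the dyadic code -/
def idx (L l p : ℕ) : ℕ := if l < L then p / 2 ^ (l + 1) else p / 2 ^ L

theorem abs_eps_le (L l p : ℕ) : |eps L l p| ≤ 1 := by
  unfold eps
  split_ifs <;> simp

theorem idx_le (L l p : ℕ) : idx L l p ≤ p := by
  unfold idx
  split_ifs
  · exact Nat.div_le_self _ _
  · exact Nat.div_le_self _ _

theorem decode (L p : ℕ) (w : ℕ → ℝ) :
    w p = ∑ l ∈ Finset.range (L + 1), eps L l p * bco L l (idx L l p) w := by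
  rw [Finset.sum_range_succ]
  have e1 : ∀ l ∈ Finset.range L, eps L l p * bco L l (idx L l p) w
      = w (2 ^ l * (p / 2 ^ l)) - w (2 ^ (l + 1) * (p / 2 ^ (l + 1))) := by
    intro l hl
    have hl' : l < L := Finset.mem_range.1 hl
    have e2 : p / 2 ^ (l + 1) = p / 2 ^ l / 2 := by
      rw [pow_succ, Nat.div_div_eq_div_mul]
    have e3 : 2 ^ (l + 1) * (p / 2 ^ (l + 1)) = 2 * (p / 2 ^ (l + 1)) * 2 ^ l := by
      rw [pow_succ]; ring
    unfold eps bco idx
    rw [if_pos hl', if_pos hl', if_pos hl']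
    by_cases hq : (p / 2 ^ l) % 2 = 1
    · rw [if_pos hq, one_mul, e3]
      have e4 : 2 * (p / 2 ^ (l + 1)) + 1 = p / 2 ^ l := by rw [e2]; omega
      rw [e4, mul_comm (p / 2 ^ l) (2 ^ l)]
    · rw [if_neg hq, zero_mul, e3]
      have e4 : 2 * (p / 2 ^ (l + 1)) = p / 2 ^ l := by rw [e2]; omega
      rw [e4, mul_comm (p / 2 ^ l) (2 ^ l), sub_self]
  rw [Finset.sum_congr rfl e1, Finset.sum_range_sub']
  unfold eps bco idx
  rw [if_neg (lt_irrefl L), if_neg (lt_irrefl L), if_neg (lt_irrefl L)]
  rw [mul_comm (p / 2 ^ L) (2 ^ L)]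
  simp

theorem bco_sum_le (L l : ℕ) (hl : l ≤ L) (w : ℕ → ℝ) (V : ℝ)
    (hV : ∀ N, ∑ p ∈ Finset.range N, |w (p + 1) - w p| ≤ V)
    (hz : ∀ i, ∃ z, i * 2 ^ L ≤ z ∧ z ≤ (i + 1) * 2 ^ L ∧ w z = 0) (M : ℕ) :
    ∑ i ∈ Finset.range M, |bco L l i w| ≤ V := by
  rcases Nat.lt_or_ge l L with h | h
  · have e1 : ∀ i ∈ Finset.range M, |bco L l i w|
        = |w ((2 * i + 1) * 2 ^ l) - w (i * 2 ^ (l + 1))| := by
      intro i _
      unfold bco
      rw [if_pos h]
      have : 2 * i * 2 ^ l = i * 2 ^ (l + 1) := by rw [pow_succ]; ring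
      rw [this]
    rw [Finset.sum_congr rfl e1]
    refine (cell_sum w (2 ^ (l + 1)) (fun i => (2 * i + 1) * 2 ^ l) (fun i => ?_)
      (fun i => ?_) M).trans (hV _)
    · have : i * 2 ^ (l + 1) = 2 * i * 2 ^ l := by rw [pow_succ]; ring
      rw [this]
      exact Nat.mul_le_mul_right _ (by omega)
    · have : (i + 1) * 2 ^ (l + 1) = (2 * i + 2) * 2 ^ l := by rw [pow_succ]; ring
      rw [this]
      exact Nat.mul_le_mul_right _ (by omega)
  · choose f hf1 hf2 hf3 using hz
    have hlL : l = L := le_antisymm hl h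
    have e1 : ∀ i ∈ Finset.range M, |bco L l i w| = |w (f i) - w (i * 2 ^ L)| := by
      intro i _
      unfold bco
      rw [if_neg (not_lt.2 h), hf3 i, zero_sub, abs_neg]
    rw [Finset.sum_congr rfl e1]
    exact (cell_sum w (2 ^ L) f hf1 hf2 M).trans (hV _)

/-- the extension by zero of a function on `Fin m` -/
noncomputable def ext (m : ℕ) (u : Fin m → ℝ) (p : ℕ) : ℝ := if h : p < m then u ⟨p, h⟩ else 0

/-- the total variation of the extension by zero (to the right) of a function on `Fin m` -/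
noncomputable def variation (m : ℕ) (u : Fin m → ℝ) : ℝ :=
  ∑ p ∈ Finset.range m, |ext m u (p + 1) - ext m u p|

theorem variation_ge (m : ℕ) (u : Fin m → ℝ) (N : ℕ) :
    ∑ p ∈ Finset.range N, |ext m u (p + 1) - ext m u p| ≤ variation m u := by
  unfold variation
  rcases le_total N m with h | h
  · exact Finset.sum_le_sum_of_subset_of_nonneg
      (Finset.range_subset_range.2 h) fun _ _ _ => abs_nonneg _
  · rw [← Finset.sum_range_add_sum_Ico _ h]
    have : ∑ p ∈ Finset.Ico m N, |ext m u (p + 1) - ext m u p| = 0 := by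
      refine Finset.sum_eq_zero fun p hp => ?_
      have hp' := (Finset.mem_Ico.1 hp).1
      unfold ext
      rw [dif_neg (by omega), dif_neg (by omega)]
      simp
    rw [this, add_zero]

theorem variation_nonneg (m : ℕ) (u : Fin m → ℝ) : 0 ≤ variation m u :=
  Finset.sum_nonneg fun _ _ => abs_nonneg _

theorem ext_zero_in_cell (m L : ℕ) (u : Fin m → ℝ)
    (hu : (Finset.univ.filter fun p => u p ≠ 0).card < 2 ^ L) (i : ℕ) :
    ∃ z, i * 2 ^ L ≤ z ∧ z ≤ (i + 1) * 2 ^ L ∧ ext m u z = 0 := by
  classical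
  by_contra hcon
  push Not at hcon
  have hsub : Finset.Ico (i * 2 ^ L) ((i + 1) * 2 ^ L)
      ⊆ (Finset.univ.filter fun p => u p ≠ 0).image (fun p : Fin m => (p : ℕ)) := by
    intro z hz
    rw [Finset.mem_Ico] at hz
    have h := hcon z hz.1 hz.2.le
    unfold ext at h
    by_cases hm : z < m
    · rw [dif_pos hm] at h
      exact Finset.mem_image.2 ⟨⟨z, hm⟩, Finset.mem_filter.2 ⟨Finset.mem_univ _, h⟩, rfl⟩
    · rw [dif_neg hm] at h
      exact absurd rfl h
  have hc := (Finset.card_le_card hsub).trans Finset.card_image_le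
  rw [Nat.card_Ico] at hc
  have : (i + 1) * 2 ^ L - i * 2 ^ L = 2 ^ L := by
    rw [add_mul, one_mul, Nat.add_sub_cancel_left]
  omega

/-- the code of a family of functions, each of which has small variation along one of finitely many
orderings -/
theorem hasCode_oneDim {m r L : ℕ} {ι : Type} (π : ℕ → Equiv.Perm (Fin m)) (g : Fin m → ι → ℝ)
    (T : ℝ) (hT : ∀ i, ∃ s, s < r ∧ variation m (fun p => g (π s p) i) ≤ T)
    (hsupp : ∀ i, (Finset.univ.filter fun p => g p i ≠ 0).card < 2 ^ L) :
    HasCode (ℕ × ℕ × ℕ) (ℕ × ℕ) g ((r : ℝ) * (L + 1)) ((L + 1) * T) := by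
  classical
  choose s hs1 hs2 using hT
  let W : ℕ → ι → ℕ → ℝ := fun t i => ext m (fun p => g (π t p) i)
  let pos : ℕ → Fin m → ℕ := fun t p => ((π t).symm p : ℕ)
  refine ⟨Finset.range r ×ˢ (Finset.range (L + 1) ×ˢ Finset.range m),
    fun y i => if y.1 = s i then bco L y.2.1 y.2.2 (W y.1 i) else 0,
    Finset.range r ×ˢ Finset.range (L + 1),
    fun p a => eps L a.2 (pos a.1 p),
    fun p a => (a.1, a.2, idx L a.2 (pos a.1 p)), ?_, ?_, ?_, ?_, ?_⟩
  · intro p a ha
    rw [Finset.mem_product] at ha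
    simp only [Finset.mem_product]
    refine ⟨ha.1, ha.2, Finset.mem_range.2 ?_⟩
    exact (idx_le _ _ _).trans_lt ((π a.1).symm p).isLt
  · intro p a
    exact abs_eps_le _ _ _
  · rw [Finset.card_product, Finset.card_range, Finset.card_range]
    push_cast
    exact le_rfl
  · intro i
    have hcard : (Finset.univ.filter fun p => g (π (s i) p) i ≠ 0).card < 2 ^ L := by
      refine lt_of_le_of_lt ?_ (hsupp i)
      refine Finset.card_le_card_of_injOn (fun p => π (s i) p) ?_ ?_
      · intro p hp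
        simp only [Finset.coe_filter, Finset.mem_univ, true_and, Set.mem_ofPred_eq] at hp ⊢
        exact hp
      · exact fun p _ q _ h => (π (s i)).injective h
    have hz := ext_zero_in_cell m L (fun p => g (π (s i) p) i) hcard
    have hV : ∀ N, ∑ p ∈ Finset.range N, |W (s i) i (p + 1) - W (s i) i p| ≤ T :=
      fun N => (variation_ge m _ N).trans (hs2 i)
    rw [Finset.sum_product]
    have e1 : ∀ t ∈ Finset.range r, (∑ y ∈ Finset.range (L + 1) ×ˢ Finset.range m,
        |if (t, y).1 = s i then bco L (t, y).2.1 (t, y).2.2 (W (t, y).1 i) else 0|)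
        = if t = s i then ∑ y ∈ Finset.range (L + 1) ×ˢ Finset.range m,
          |bco L y.1 y.2 (W (s i) i)| else 0 := by
      intro t _
      by_cases ht : t = s i
      · rw [if_pos ht]
        refine Finset.sum_congr rfl fun y _ => ?_
        simp only [ht, if_true]
      · rw [if_neg ht]
        refine Finset.sum_eq_zero fun y _ => ?_
        simp only [if_neg ht, abs_zero]
    rw [Finset.sum_congr rfl e1, Finset.sum_ite_eq' _ _ _,
      if_pos (Finset.mem_range.2 (hs1 i)), Finset.sum_product]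
    calc ∑ l ∈ Finset.range (L + 1), ∑ y ∈ Finset.range m, |bco L l y (W (s i) i)|
        ≤ ∑ l ∈ Finset.range (L + 1), T := by
          refine Finset.sum_le_sum fun l hl => ?_
          have hl' : l ≤ L := Nat.lt_succ_iff.1 (Finset.mem_range.1 hl)
          exact bco_sum_le L l hl' (W (s i) i) T hV hz m
      _ = (L + 1) * T := by
          rw [Finset.sum_const, Finset.card_range, nsmul_eq_mul]
          push_cast
          ring
  · intro p i
    rw [Finset.sum_product]
    have e1 : ∀ t ∈ Finset.range r, (∑ l ∈ Finset.range (L + 1),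
        eps L (t, l).2 (pos (t, l).1 p) *
          (if ((t, l).1, (t, l).2, idx L (t, l).2 (pos (t, l).1 p)).1 = s i then
            bco L ((t, l).1, (t, l).2, idx L (t, l).2 (pos (t, l).1 p)).2.1
              ((t, l).1, (t, l).2, idx L (t, l).2 (pos (t, l).1 p)).2.2
              (W ((t, l).1, (t, l).2, idx L (t, l).2 (pos (t, l).1 p)).1 i) else 0))
        = if t = s i then g p i else 0 := by
      intro t _
      by_cases ht : t = s i
      · rw [if_pos ht]
        have e2 : g p i = W (s i) i (pos (s i) p) := by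
          simp only [W, pos, ext]
          rw [dif_pos ((π (s i)).symm p).isLt]
          simp
        rw [e2, decode L (pos (s i) p) (W (s i) i)]
        refine Finset.sum_congr rfl fun l _ => ?_
        simp only [ht, if_true]
      · rw [if_neg ht]
        refine Finset.sum_eq_zero fun l _ => ?_
        simp only [if_neg ht, mul_zero]
    rw [Finset.sum_congr rfl e1, Finset.sum_ite_eq' _ _ _,
      if_pos (Finset.mem_range.2 (hs1 i))]

end Pool.Agent.Lib.MP_183cce_co
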