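import Pool.Agent.Lib.MP_183cce_co.Main

/-!
# Functions with few monotone pieces
-/

set_option autoImplicit false

namespace Pool.Agent.Lib.MP_183cce_co

/-- `Fin m` is divided into at most `q` consecutive intervals, on each of which `u` is monotone or
antitone -/
def Pieces (q m : ℕ) (u : Fin m → ℝ) : Prop :=
  ∃ c : Fin m → Fin q, Monotone c ∧
    ∀ a, MonotoneOn u {p | c p = a} ∨ AntitoneOn u {p | c p = a}

theorem variation_le_of_pieces {q m : ℕ} {u : Fin m → ℝ} (hp : Pieces q m u) {h : ℝ} (h0 : 0 ≤ h)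
    (hu : ∀ p, |u p| ≤ h) : variation m u ≤ h + 4 * h * q := by
  classical
  obtain ⟨c, hc, hmono⟩ := hp
  let sg : Fin q → ℝ := fun a => if MonotoneOn u {p | c p = a} then 1 else -1
  let φ : ℕ → ℝ := fun p => if hpm : p < m then sg (c ⟨p, hpm⟩) * u ⟨p, hpm⟩ else 0
  let γ : ℕ → ℝ := fun p => if hpm : p < m then ((c ⟨p, hpm⟩ : ℕ) : ℝ) else q
  have hsg : ∀ a, |sg a| = 1 := fun a => by
    simp only [sg]; split_ifs <;> simp
  have hφ : ∀ p, |φ p| ≤ h := fun p => by
    simp only [φ]
    split_ifs with hpm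
    · rw [abs_mul, hsg, one_mul]; exact hu _
    · simpa using h0
  have hγ0 : 0 ≤ γ 0 := by
    simp only [γ]
    split_ifs
    · positivity
    · positivity
  have hext : ∀ p, |ext m u p| ≤ h := fun p => by
    unfold ext
    split_ifs with hpm
    · exact hu _
    · simpa using h0
  have step : ∀ p ∈ Finset.range m, |ext m u (p + 1) - ext m u p|
      ≤ (φ (p + 1) - φ p) + 4 * h * (γ (p + 1) - γ p) := by
    intro p hp
    have hpm : p < m := Finset.mem_range.1 hp
    have h1 := abs_le.1 (hφ (p + 1))
    have h2 := abs_le.1 (hφ p)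
    have hb : |ext m u (p + 1) - ext m u p| ≤ 2 * h := by
      refine (abs_sub _ _).trans ?_
      have := hext (p + 1)
      have := hext p
      linarith
    by_cases hp1 : p + 1 < m
    · have hcm : c ⟨p, hpm⟩ ≤ c ⟨p + 1, hp1⟩ := hc (by simp [Fin.le_def])
      by_cases hcc : c ⟨p + 1, hp1⟩ = c ⟨p, hpm⟩
      · -- same piece
        have hγ : γ (p + 1) - γ p = 0 := by
          simp only [γ]; rw [dif_pos hp1, dif_pos hpm, hcc, sub_self]
        have hle : (⟨p, hpm⟩ : Fin m) ≤ ⟨p + 1, hp1⟩ := by simp [Fin.le_def]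
        rw [hγ, mul_zero, add_zero]
        simp only [φ, ext]
        rw [dif_pos hp1, dif_pos hpm, dif_pos hp1, dif_pos hpm, hcc]
        simp only [sg]
        by_cases hM : MonotoneOn u {p' | c p' = c ⟨p, hpm⟩}
        · rw [if_pos hM]
          have h3 : u ⟨p, hpm⟩ ≤ u ⟨p + 1, hp1⟩ := hM rfl hcc hle
          rw [abs_of_nonneg (by linarith)]
          linarith
        · rw [if_neg hM]
          have hA := (hmono (c ⟨p, hpm⟩)).resolve_left hM
          have h3 : u ⟨p + 1, hp1⟩ ≤ u ⟨p, hpm⟩ := hA rfl hcc hle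
          rw [abs_of_nonpos (by linarith)]
          linarith
      · have hlt : c ⟨p, hpm⟩ < c ⟨p + 1, hp1⟩ := lt_of_le_of_ne hcm (Ne.symm hcc)
        have hγ : 1 ≤ γ (p + 1) - γ p := by
          simp only [γ]; rw [dif_pos hp1, dif_pos hpm]
          have h3 : ((c ⟨p, hpm⟩ : ℕ) : ℝ) + 1 ≤ ((c ⟨p + 1, hp1⟩ : ℕ) : ℝ) := by
            exact_mod_cast hlt
          linarith
        nlinarith
    · have hγ : 1 ≤ γ (p + 1) - γ p := by
        simp only [γ]; rw [dif_neg hp1, dif_pos hpm]
        have h3 : ((c ⟨p, hpm⟩ : ℕ) : ℝ) + 1 ≤ (q : ℝ) := by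
          exact_mod_cast (c ⟨p, hpm⟩).isLt
        linarith
      nlinarith
  unfold variation
  refine (Finset.sum_le_sum step).trans ?_
  rw [Finset.sum_add_distrib, ← Finset.mul_sum, Finset.sum_range_sub, Finset.sum_range_sub]
  have e1 : φ m = 0 := by simp only [φ]; rw [dif_neg (lt_irrefl m)]
  have e2 : γ m = q := by simp only [γ]; rw [dif_neg (lt_irrefl m)]
  rw [e1, e2]
  have h2 := abs_le.1 (hφ 0)
  nlinarith

theorem clip_mono (h : ℝ) : Monotone (clip h) := fun _ _ hab =>
  max_le_max le_rfl (min_le_min hab le_rfl)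

theorem layer_mono (j : ℕ) : Monotone (layer j) := by
  intro a b hab
  -- `layer j s = clip h (s - clip h s)` with `h = 2^{-(j+1)}`
  have key : ∀ s, layer j s = clip ((1 / 2) ^ (j + 1)) (s - clip ((1 / 2) ^ (j + 1)) s) := by
    intro s
    have h0 : (0 : ℝ) < (1 / 2) ^ (j + 1) := by positivity
    have e : ((1 : ℝ) / 2) ^ j = 2 * (1 / 2) ^ (j + 1) := by rw [pow_succ]; ring
    unfold layer
    rw [e]
    generalize ((1 : ℝ) / 2) ^ (j + 1) = h at h0 ⊢
    rcases le_total |s| h with hs | hs
    · rw [clip_of_abs_le hs, clip_of_abs_le (by linarith), sub_self,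
        clip_of_abs_le (by simpa using h0.le)]
    · rcases le_total 0 s with h1 | h1
      · rw [abs_of_nonneg h1] at hs
        rw [clip_of_ge h0.le hs]
        rcases le_total s (2 * h) with h2 | h2
        · rw [clip_of_abs_le (by rw [abs_of_nonneg h1]; exact h2),
            clip_of_abs_le (by rw [abs_of_nonneg (by linarith)]; linarith)]
        · rw [clip_of_ge (by linarith) h2, clip_of_ge h0.le (by linarith)]
          ring
      · rw [abs_of_nonpos h1] at hs
        rw [clip_of_le h0.le (by linarith)]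
        rcases le_total (-s) (2 * h) with h2 | h2
        · rw [clip_of_abs_le (by rw [abs_of_nonpos h1]; exact h2),
            clip_of_abs_le (by rw [abs_of_nonpos (by linarith)]; linarith)]
        · rw [clip_of_le (by linarith) (by linarith), clip_of_le h0.le (by linarith)]
          ring
  have hres : ∀ h : ℝ, 0 ≤ h → Monotone fun s => s - clip h s := by
    intro h h0 s t hst
    show s - clip h s ≤ t - clip h t
    unfold clip
    rcases le_total s h with h1 | h1 <;> rcases le_total t h with h2 | h2 <;>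
      rcases le_total (-h) s with h3 | h3 <;> rcases le_total (-h) t with h4 | h4 <;>
      simp only [min_eq_left, min_eq_right, h1, h2] <;>
      first
        | (rw [max_eq_right h3, max_eq_right h4]; linarith)
        | (rw [max_eq_right h3, max_eq_left h4]; linarith)
        | (rw [max_eq_left h3, max_eq_right h4]; linarith)
        | (rw [max_eq_left h3, max_eq_left h4]; linarith)
        | (rw [max_eq_right (by linarith : -h ≤ h), max_eq_right h4]; linarith)
        | (rw [max_eq_right h3, max_eq_right (by linarith : -h ≤ h)]; linarith)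
        | (rw [max_eq_right (by linarith : -h ≤ h), max_eq_left h4]; linarith)
        | (rw [max_eq_left h3, max_eq_right (by linarith : -h ≤ h)]; linarith)
        | linarith
  rw [key, key]
  exact clip_mono _ (hres _ (by positivity) hab)

theorem Pieces.layer {q m : ℕ} {u : Fin m → ℝ} (hp : Pieces q m u) (j : ℕ) :
    Pieces q m (fun p => layer j (u p)) := by
  obtain ⟨c, hc, hmono⟩ := hp
  refine ⟨c, hc, fun a => ?_⟩
  rcases hmono a with h | h
  · exact Or.inl fun x hx y hy hxy => layer_mono j (h hx hy hxy)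
  · exact Or.inr fun x hx y hy hxy => layer_mono j (h hx hy hxy)

end Pool.Agent.Lib.MP_183cce_co
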